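import Pool.Agent.W492.Gon.NonRat

set_option autoImplicit false
set_option linter.unusedSimpArgs false
set_option linter.style.haveILetI false
set_option linter.unusedSectionVars false

open MvPolynomial

namespace Pool.Agent.W492.Gon

section degree
variable {σ k : Type*} [Field k]

lemma totalDegree_pderiv_lt [DecidableEq σ] (l : σ) (p : MvPolynomial σ k) (h : pderiv l p ≠ 0) :
    (pderiv l p).totalDegree + 1 ≤ p.totalDegree := by
  obtain ⟨s, hs, hs2⟩ : ∃ s ∈ (pderiv l p).support, (s.sum fun _ e => e) =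
      (pderiv l p).totalDegree := by
    obtain ⟨s, hs, h2⟩ := Finset.exists_mem_eq_sup (pderiv l p).support
      (support_nonempty.2 h) (fun s => s.sum fun _ e => e)
    exact ⟨s, hs, h2.symm⟩
  rw [← hs2]
  rw [mem_support_iff, coeff_pderiv] at hs
  have h1 : s + Finsupp.single l 1 ∈ p.support := by
    rw [mem_support_iff]
    exact left_ne_zero_of_mul hs
  have h2 := le_totalDegree h1
  have h3 : ((s + Finsupp.single l 1).sum fun _ e => e) = (s.sum fun _ e => e) + 1 := by
    rw [Finsupp.sum_add_index (by simp) (by simp)]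
    simp
  omega

/-- the largest total degree of the entries -/
def mdeg (A : Fin 3 → MvPolynomial σ k) : ℕ := Finset.univ.sup fun i => (A i).totalDegree

lemma le_mdeg (A : Fin 3 → MvPolynomial σ k) (i : Fin 3) : (A i).totalDegree ≤ mdeg A :=
  Finset.le_sup (f := fun i => (A i).totalDegree) (Finset.mem_univ i)

lemma exists_mdeg (A : Fin 3 → MvPolynomial σ k) (hA : A ≠ 0) :
    ∃ i, A i ≠ 0 ∧ (A i).totalDegree = mdeg A := by
  obtain ⟨i, -, hi⟩ := Finset.exists_mem_eq_sup (Finset.univ : Finset (Fin 3)) ⟨0, by simp⟩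
    (fun i => (A i).totalDegree)
  by_cases h : A i = 0
  · have h0 : mdeg A = 0 := by
      have : mdeg A = (A i).totalDegree := hi
      rw [this, h, totalDegree_zero]
    obtain ⟨j, hj⟩ : ∃ j, A j ≠ 0 := by
      by_contra hc
      push Not at hc
      exact hA (funext hc)
    refine ⟨j, hj, ?_⟩
    have := le_mdeg A j
    omega
  · exact ⟨i, h, hi.symm⟩

lemma term_le [DecidableEq σ] (A : Fin 3 → MvPolynomial σ k) (l : σ) (i j : Fin 3)
    (h1 : 1 ≤ mdeg A) : (A i * pderiv l (A j)).totalDegree + 1 ≤ 2 * mdeg A := by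
  by_cases h : A i * pderiv l (A j) = 0
  · rw [h, totalDegree_zero]
    omega
  · have h2 := totalDegree_mul_of_isDomain (left_ne_zero_of_mul h) (right_ne_zero_of_mul h)
    have h3 := totalDegree_pderiv_lt l (A j) (right_ne_zero_of_mul h)
    have h4 := le_mdeg A i
    have h5 := le_mdeg A j
    omega

lemma one_le_mdeg_of [DecidableEq σ] (A : Fin 3 → MvPolynomial σ k) (l : σ)
    (h : cr A (fun i => pderiv l (A i)) ≠ 0) : 1 ≤ mdeg A := by
  by_contra hc
  apply h
  have h0 : ∀ j, pderiv l (A j) = 0 := by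
    intro j
    by_contra hj
    have h1 := totalDegree_pderiv_lt l (A j) hj
    have h2 := le_mdeg A j
    omega
  funext i
  revert i
  apply fin3 <;> simp [h0]

lemma cr_le [DecidableEq σ] (A : Fin 3 → MvPolynomial σ k) (l : σ) (h1 : 1 ≤ mdeg A)
    (i : Fin 3) : (cr A (fun i => pderiv l (A i)) i).totalDegree + 1 ≤ 2 * mdeg A := by
  have key : ∀ a b : MvPolynomial σ k, a.totalDegree + 1 ≤ 2 * mdeg A →
      b.totalDegree + 1 ≤ 2 * mdeg A → (a - b).totalDegree + 1 ≤ 2 * mdeg A := by
    intro a b ha hb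
    have := totalDegree_sub a b
    have h3 : max a.totalDegree b.totalDegree + 1 ≤ 2 * mdeg A := by
      rcases max_choice a.totalDegree b.totalDegree with h | h <;> omega
    omega
  revert i
  apply fin3
  · exact key _ _ (term_le A l 1 2 h1) (term_le A l 2 1 h1)
  · exact key _ _ (term_le A l 2 0 h1) (term_le A l 0 2 h1)
  · exact key _ _ (term_le A l 0 1 h1) (term_le A l 1 0 h1)

lemma mdeg_lt [DecidableEq σ] (A B : Fin 3 → MvPolynomial σ k) (l : σ) (c : MvPolynomial σ k)
    (hB : B ≠ 0) (hc : c ≠ 0) (h : ∀ i, cr A (fun i => pderiv l (A i)) i = c * p2 B i) :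
    mdeg B < mdeg A := by
  obtain ⟨i, hi, hi2⟩ := exists_mdeg B hB
  have hp : p2 B i ≠ 0 := pow_ne_zero 2 hi
  have h0 : c * p2 B i ≠ 0 := mul_ne_zero hc hp
  have h1 : cr A (fun i => pderiv l (A i)) ≠ 0 := by
    intro h3
    apply h0
    rw [← h i, h3]
    rfl
  have h2 := cr_le A l (one_le_mdeg_of A l h1) i
  rw [h i, totalDegree_mul_of_isDomain hc hp] at h2
  have h3 : (p2 B i).totalDegree = 2 * mdeg B := by
    rw [← hi2]
    show (B i ^ 2).totalDegree = _
    rw [pow_two, totalDegree_mul_of_isDomain hi hi]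
    ring
  omega

end degree

section
variable {k : Type*} [Field k] [CharP k 2]

lemma exists_coeff {P : Type*} [CommRing P] [IsDomain P] [UniqueFactorizationMonoid P] [CharP P 2]
    (A B : Fin 3 → P) (hB : Prim B) (hB0 : B ≠ 0) (D : P → P)
    (hadd : ∀ a b, D (a + b) = D a + D b) (hmul : ∀ a b, D (a * b) = a * D b + b * D a)
    (h : dt A (p2 B) = 0) : ∃ c : P, ∀ i, cr A (fun i => D (A i)) i = c * p2 B i := by
  have h2 : (2 : P) = 0 := CharTwo.two_eq_zero
  have hsq : ∀ a, D (a ^ 2) = 0 := by
    intro a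
    rw [pow_two, hmul]
    linear_combination (a * D a) * h2
  have h0 : D 0 = 0 := by have := hadd 0 0; simpa using this
  have hd : dt (fun i => D (A i)) (p2 B) = 0 := by
    have h3 := congrArg D h
    rw [h0] at h3
    unfold dt p2 at h3 ⊢
    rw [hadd, hadd, hmul, hmul, hmul, hsq, hsq, hsq] at h3
    linear_combination h3
  refine exists_mul_of_prim (p2 B) _ hB.sq ?_ ?_
  · intro h4
    apply hB0
    funext i
    have := congrFun h4 i
    simpa [p2] using this
  · intro i j
    exact cross_prop A _ (p2 B) h hd i j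

/-- the main dichotomy -/
theorem dichotomy (A B : Fin 3 → MvPolynomial (Fin 2) k) (hA : Prim A) (hB : Prim B)
    (hA0 : A ≠ 0) (hB0 : B ≠ 0) (h1 : dt A (p2 B) = 0) (h2 : dt B (p2 A) = 0) :
    (∀ l, cr A (fun i => pderiv l (A i)) = 0) ∨ (∀ l, cr B (fun i => pderiv l (B i)) = 0) := by
  have hc := fun l : Fin 2 => exists_coeff A B hB hB0 (fun a => pderiv l a)
    (fun a b => map_add _ a b) (fun a b => by rw [Derivation.leibniz]; rfl) h1
  have he := fun l : Fin 2 => exists_coeff B A hA hA0 (fun a => pderiv l a)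
    (fun a b => map_add _ a b) (fun a b => by rw [Derivation.leibniz]; rfl) h2
  choose c hc using hc
  choose e he using he
  by_cases h3 : ∀ l, c l = 0
  · left
    intro l
    funext i
    rw [hc l i, h3 l, zero_mul]
    rfl
  · right
    push Not at h3
    obtain ⟨l, hl⟩ := h3
    have h4 := mdeg_lt A B l (c l) hB0 hl (hc l)
    intro l'
    funext i
    rw [he l' i]
    by_cases h5 : e l' = 0
    · rw [h5, zero_mul]
      rfl
    · exact absurd (mdeg_lt B A l' (e l') hA0 h5 (he l')) (by omega)

/-- a derivation which kills all ratios is zero -/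
theorem der_eq_zero {K : Type} {k : Type} [Field k] [Field K] [Algebra k K] {P : Type*}
    [CommRing P] [IsDomain P] [Algebra k P] [Algebra P K] [IsScalarTower k P K]
    [IsFractionRing P K] (x y : Fin 3 → K)
    (hgen : IntermediateField.adjoin k (ratios x ∪ ratios y) = ⊤) (A B : Fin 3 → P) (ρ τ : K)
    (hρ : ρ ≠ 0) (hτ : τ ≠ 0)
    (hx : ∀ i, x i = ρ * algebraMap P K (A i)) (hy : ∀ i, y i = τ * algebraMap P K (B i))
    (D : P → P) (hadd : ∀ a b, D (a + b) = D a + D b)
    (hmul : ∀ a b, D (a * b) = a * D b + b * D a) (hk : ∀ a : k, D (algebraMap k P a) = 0)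
    (h1 : cr A (fun i => D (A i)) = 0) (h2 : cr B (fun i => D (B i)) = 0) (p : P) : D p = 0 := by
  obtain ⟨E, eadd, emul, eD⟩ := exists_ext (K := K) D hadd hmul
  have ek : ∀ a : k, E (algebraMap k K a) = 0 := by
    intro a
    rw [IsScalarTower.algebraMap_apply k P K, eD, hk, map_zero]
  have e0 : E 0 = 0 := by have := eadd 0 0; simpa using this
  have e1 : E 1 = 0 := by have := emul 1 1; simpa using this
  have einv : ∀ a : K, E a = 0 → E a⁻¹ = 0 := by
    intro a ha
    by_cases h : a = 0
    · rw [h, inv_zero, e0]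
    · have h3 := emul a a⁻¹
      rw [mul_inv_cancel₀ h, e1, ha, mul_zero, add_zero] at h3
      exact (mul_eq_zero.1 h3.symm).resolve_left h
  have ratio : ∀ (C : Fin 3 → P) (v : Fin 3 → K) (r : K), r ≠ 0 →
      (∀ i, v i = r * algebraMap P K (C i)) → cr C (fun i => D (C i)) = 0 →
      ∀ z ∈ ratios v, E z = 0 := by
    rintro C v r hr hv hC z ⟨i, j, hj, rfl⟩
    have hCj : algebraMap P K (C j) ≠ 0 := by
      intro h
      apply hj
      rw [hv, h, mul_zero]
    have hz : v i / v j * algebraMap P K (C j) = algebraMap P K (C i) := by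
      rw [hv i, hv j]
      field_simp
    have h3 := emul (v i / v j) (algebraMap P K (C j))
    rw [hz, eD, eD] at h3
    have h4 := prop_of_cr _ _ hC i j
    have h5 : algebraMap P K (C i) * algebraMap P K (D (C j)) =
        algebraMap P K (C j) * algebraMap P K (D (C i)) := by
      rw [← map_mul, ← map_mul, h4]
    have h6 : algebraMap P K (C j) ^ 2 * E (v i / v j) = 0 := by
      linear_combination (-algebraMap P K (C j)) * h3 - h5 - algebraMap P K (D (C j)) * hz
    exact (mul_eq_zero.1 h6).resolve_left (pow_ne_zero 2 hCj)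
  have all : ∀ z : K, E z = 0 := by
    intro z
    have hz : z ∈ IntermediateField.adjoin k (ratios x ∪ ratios y) := by rw [hgen]; trivial
    induction hz using IntermediateField.adjoin_induction with
    | mem z hz =>
      rcases hz with hz | hz
      · exact ratio A x ρ hρ hx h1 z hz
      · exact ratio B y τ hτ hy h2 z hz
    | algebraMap a => exact ek a
    | add a b _ _ ha hb => rw [eadd, ha, hb, add_zero]
    | inv a _ ha => exact einv a ha
    | mul a b _ _ ha hb => rw [emul, ha, hb, mul_zero, mul_zero, add_zero]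
  have h7 := eD p
  rw [all] at h7
  exact (IsFractionRing.to_map_eq_zero_iff (K := K)).1 h7.symm

end

section
variable {k K : Type} [Field k] [CharP k 2] [Field K] [Algebra k K]

theorem nonrat_aux [Algebra (MvPolynomial (Fin 2) k) K]
    [IsScalarTower k (MvPolynomial (Fin 2) k) K] [IsFractionRing (MvPolynomial (Fin 2) k) K]
    (x y : Fin 3 → K) (hgen : IntermediateField.adjoin k (ratios x ∪ ratios y) = ⊤)
    (A B : Fin 3 → MvPolynomial (Fin 2) k) (ρ τ : K) (hρ : ρ ≠ 0) (hτ : τ ≠ 0)
    (hx : ∀ i, x i = ρ * algebraMap _ K (A i)) (hy : ∀ i, y i = τ * algebraMap _ K (B i))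
    (hB : Prim B) (hB0 : B ≠ 0) (h1 : dt A (p2 B) = 0)
    (hcr : ∀ l, cr B (fun i => pderiv l (B i)) = 0) : False := by
  have hc := fun l : Fin 2 => exists_coeff A B hB hB0 (fun a => pderiv l a)
    (fun a b => map_add _ a b) (fun a b => by rw [Derivation.leibniz]; rfl) h1
  choose c hc using hc
  have hD := der_eq_zero x y hgen A B ρ τ hρ hτ hx hy
    (fun a => c 1 * pderiv 0 a - c 0 * pderiv 1 a) (fun a b => by simp only [map_add]; ring)
    (fun a b => by simp only [Derivation.leibniz, smul_eq_mul]; ring)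
    (fun a => by simp [MvPolynomial.algebraMap_eq]) ?_ ?_
  · have d0 := hD (X 0)
    have d1 := hD (X 1)
    simp only [pderiv_X_self, pderiv_X_of_ne (show (0 : Fin 2) ≠ 1 by decide),
      pderiv_X_of_ne (show (1 : Fin 2) ≠ 0 by decide), mul_one, mul_zero, sub_zero, zero_sub,
      neg_eq_zero] at d0 d1
    have hD2 := der_eq_zero x y hgen A B ρ τ hρ hτ hx hy (fun a => pderiv 0 a)
      (fun a b => map_add _ a b) (fun a b => by rw [Derivation.leibniz]; rfl)
      (fun a => by simp [MvPolynomial.algebraMap_eq])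
      (by
        funext i
        rw [hc 0 i, d1, zero_mul]
        rfl) (hcr 0) (X 0)
    rw [pderiv_X_self] at hD2
    exact one_ne_zero hD2
  · have e0 := hc 0
    have e1 := hc 1
    funext i
    have e0i := e0 i
    have e1i := e1 i
    revert i
    intro i
    revert e0 e1
    intro e0 e1
    have lin : ∀ i, cr A (fun a => c 1 * pderiv 0 (A a) - c 0 * pderiv 1 (A a)) i =
        c 1 * cr A (fun a => pderiv 0 (A a)) i - c 0 * cr A (fun a => pderiv 1 (A a)) i := by
      apply fin3 <;> simp only [cr_zero, cr_one, cr_two] <;> ring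
    intro e0i e1i
    rw [lin i, e0i, e1i]
    simp only [Pi.zero_apply]
    ring
  · have e0 := hcr 0
    have e1 := hcr 1
    funext i
    have lin : ∀ i, cr B (fun a => c 1 * pderiv 0 (B a) - c 0 * pderiv 1 (B a)) i =
        c 1 * cr B (fun a => pderiv 0 (B a)) i - c 0 * cr B (fun a => pderiv 1 (B a)) i := by
      apply fin3 <;> simp only [cr_zero, cr_one, cr_two] <;> ring
    rw [lin i, e0, e1]
    simp

end

end Pool.Agent.W492.Gon
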