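import Mathlib
import Pool.Agent.Helper553.Uni.Defs

set_option autoImplicit false

open MvPolynomial Pool.Agent.Helper553.Uni

namespace Pool.Agent.W492.Gon

/-! ## Function fields, degrees of rational maps to projective space, preimages of lines -/

section
variable {k : Type} [Field k] {m n : ℕ}

/-- The quotients `v i / v j` of the entries of a vector. -/
def ratios {N : ℕ} {K : Type} [Field K] (v : Fin N → K) : Set K :=
  {z | ∃ i j, v j ≠ 0 ∧ z = v i / v j}

/-- `K` is the function field of the closed set `V` (with its reduced structure) and `ξ` is its
generic point: `ξ` is a point of `V` with values in `K`, every bihomogeneous polynomial over `k`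
which vanishes at `ξ` vanishes at all geometric points of `V`, and the field `K` is generated over
`k` by the quotients of the coordinates of `ξ` in the two blocks. (Such a pair `K`, `ξ` exists if
and only if the closed set `V` is irreducible, and it is unique up to isomorphism.) -/
structure IsFunctionField (V : BiProj k m n) (K : Type) [Field K] [Algebra k K]
    (ξ : Coord m n → K) : Prop where
  mem : ξ ∈ V.points K
  generic : ∀ f : MvPolynomial (Coord m n) k, Bihomogeneous f → aeval ξ f = 0 →
    ∀ q ∈ V.points (AlgebraicClosure k), aeval q f = 0
  gen : IntermediateField.adjoin k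
    (ratios (fun i => ξ (Sum.inl i)) ∪ ratios (fun j => ξ (Sum.inr j))) = ⊤

/-- `d` is the least degree `[K : k(t₁, …, tₙ)]`, where `t₁, …, tₙ` are algebraically independent
elements of the function field `K` of an `n`-dimensional variety `X`, that is, the least degree of
a dominant rational map from `X` to the projective space of dimension `n`, such a map being the
same as an embedding over `k` of the rational function field `k(t₁, …, tₙ)` into `K`. -/
def IsMinDegree (k K : Type) [Field k] [Field K] [Algebra k K] (n d : ℕ) : Prop :=
  IsLeast {e : ℕ | ∃ t : Fin n → K, AlgebraicIndependent k t ∧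
    Module.rank (IntermediateField.adjoin k (Set.range t)) K = e} d

/-- The affine coordinates `ξ(x_i) / ξ(x_0)` of the projection of `V` to its first factor. -/
def firstProj {K : Type} [Field K] (ξ : Coord m n → K) : Fin m → K :=
  fun i => ξ (Sum.inl i.succ) / ξ (Sum.inl 0)

/-- The linear form `∑ a_i x_i` in the coordinates of the first factor. -/
noncomputable def linForm (a : Fin (m + 1) → k) : MvPolynomial (Coord m n) k :=
  ∑ i, C (a i) * X (Sum.inl i)

lemma linForm_bihom (a : Fin (m + 1) → k) : Bihomogeneous (linForm (n := n) a) := by
  refine ⟨(1, 0), ?_⟩
  refine IsWeightedHomogeneous.sum _ _ _ fun i _ => ?_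
  have h := (isWeightedHomogeneous_C (bideg m n) (a i)).mul
    (isWeightedHomogeneous_X k (bideg m n) (Sum.inl i))
  simpa [bideg] using h

/-- The preimage in `V` of the hyperplane `∑ a_i x_i = 0` (for `m = 2`: of this line) of the first
factor. -/
noncomputable def preimage (V : BiProj k m n) (a : Fin (m + 1) → k) : BiProj k m n where
  eqs := insert (linForm a) V.eqs
  bihom := by
    rintro f (rfl | hf)
    · exact linForm_bihom a
    · exact V.bihom f hf

end

end Pool.Agent.W492.Gon
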