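import Mathlib

set_option autoImplicit false
set_option linter.unusedSimpArgs false

namespace Pool.Agent.W492.Gon

section
variable {R : Type*} [CommRing R]

/-- cross product -/
def cr (u v : Fin 3 → R) : Fin 3 → R :=
  ![u 1 * v 2 - u 2 * v 1, u 2 * v 0 - u 0 * v 2, u 0 * v 1 - u 1 * v 0]

/-- fourth powers of the entries -/
def p4 (v : Fin 3 → R) : Fin 3 → R := fun i => v i ^ 4

/-- squares of the entries -/
def p2 (v : Fin 3 → R) : Fin 3 → R := fun i => v i ^ 2

/-- dot product -/
def dt (u v : Fin 3 → R) : R := u 0 * v 0 + u 1 * v 1 + u 2 * v 2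

@[simp] lemma cr_zero (u v : Fin 3 → R) : cr u v 0 = u 1 * v 2 - u 2 * v 1 := rfl
@[simp] lemma cr_one (u v : Fin 3 → R) : cr u v 1 = u 2 * v 0 - u 0 * v 2 := rfl
@[simp] lemma cr_two (u v : Fin 3 → R) : cr u v 2 = u 0 * v 1 - u 1 * v 0 := rfl

lemma fin3 {P : Fin 3 → Prop} (h0 : P 0) (h1 : P 1) (h2 : P 2) : ∀ i, P i := by
  intro i
  fin_cases i
  exacts [h0, h1, h2]

/-- a vector orthogonal to `z` and `v` is proportional to `cr z v` -/
lemma cross_prop (z v y : Fin 3 → R) (h1 : dt z y = 0) (h2 : dt v y = 0) :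
    ∀ i j, y i * cr z v j = y j * cr z v i := by
  unfold dt at h1 h2
  have e01 : y 0 * cr z v 1 = y 1 * cr z v 0 := by
    simp only [cr_zero, cr_one]
    linear_combination z 2 * h2 - v 2 * h1
  have e12 : y 1 * cr z v 2 = y 2 * cr z v 1 := by
    simp only [cr_two, cr_one]
    linear_combination z 0 * h2 - v 0 * h1
  have e20 : y 2 * cr z v 0 = y 0 * cr z v 2 := by
    simp only [cr_two, cr_zero]
    linear_combination z 1 * h2 - v 1 * h1
  intro i j
  fin_cases i <;> fin_cases j
  · rfl
  · exact e01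
  · exact e20.symm
  · exact e01.symm
  · rfl
  · exact e12
  · exact e20
  · exact e12.symm
  · rfl

/-- if `cr u v = 0` then `u` and `v` are proportional -/
lemma prop_of_cr (u v : Fin 3 → R) (h : cr u v = 0) : ∀ i j, u i * v j = u j * v i := by
  have h0 := congrFun h 0
  have h1 := congrFun h 1
  have h2 := congrFun h 2
  simp only [cr_zero, cr_one, cr_two, Pi.zero_apply] at h0 h1 h2
  intro i j
  fin_cases i <;> fin_cases j
  · rfl
  · exact sub_eq_zero.1 h2
  · exact (sub_eq_zero.1 h1).symm
  · exact (sub_eq_zero.1 h2).symm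
  · rfl
  · exact sub_eq_zero.1 h0
  · exact sub_eq_zero.1 h1
  · exact (sub_eq_zero.1 h0).symm
  · rfl

lemma cr_map {S : Type*} [CommRing S] (φ : R →+* S) (u v : Fin 3 → R) (i : Fin 3) :
    φ (cr u v i) = cr (fun j => φ (u j)) (fun j => φ (v j)) i := by
  revert i
  apply fin3 <;> simp

end

section
variable {Ω : Type*} [Field Ω]

/-- a vector orthogonal to `z` and `v` is a multiple of `cr z v` if the latter is nonzero -/
lemma exists_mul_of_orth (z v y : Fin 3 → Ω) (h1 : dt z y = 0) (h2 : dt v y = 0)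
    (h : cr z v ≠ 0) : ∃ μ : Ω, ∀ i, y i = μ * cr z v i := by
  have key : ∀ i j, y i * cr z v j = y j * cr z v i := by
    unfold dt at h1 h2
    have e01 : y 0 * cr z v 1 = y 1 * cr z v 0 := by
      simp only [cr_zero, cr_one]
      linear_combination z 2 * h2 - v 2 * h1
    have e12 : y 1 * cr z v 2 = y 2 * cr z v 1 := by
      simp only [cr_two, cr_one]
      linear_combination z 0 * h2 - v 0 * h1
    have e20 : y 2 * cr z v 0 = y 0 * cr z v 2 := by
      simp only [cr_two, cr_zero]
      linear_combination z 1 * h2 - v 1 * h1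
    intro i j
    fin_cases i <;> fin_cases j
    · rfl
    · exact e01
    · exact e20.symm
    · exact e01.symm
    · rfl
    · exact e12
    · exact e20
    · exact e12.symm
    · rfl
  obtain ⟨j, hj⟩ : ∃ j, cr z v j ≠ 0 := by
    by_contra hc
    push Not at hc
    exact h (funext hc)
  refine ⟨y j / cr z v j, fun i => ?_⟩
  rw [div_mul_eq_mul_div, eq_div_iff hj, key i j]

/-- every vector orthogonal to `z ≠ 0` is a cross product with `z` -/
lemma exists_cr_of_orth (z y : Fin 3 → Ω) (h1 : dt z y = 0) (hz : z ≠ 0) :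
    ∃ u : Fin 3 → Ω, ∀ i, y i = cr u z i := by
  unfold dt at h1
  obtain ⟨j, hj⟩ : ∃ j, z j ≠ 0 := by
    by_contra hc
    push Not at hc
    exact hz (funext hc)
  fin_cases j
  · have hj' : z 0 ≠ 0 := hj
    refine ⟨![0, -y 2 / z 0, y 1 / z 0], ?_⟩
    apply fin3
    · simp
      field_simp
      linear_combination h1
    · simp
      field_simp
    · simp
      field_simp
  · have hj' : z 1 ≠ 0 := hj
    refine ⟨![y 2 / z 1, 0, -y 0 / z 1], ?_⟩
    apply fin3
    · simp
      field_simp
    · simp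
      field_simp
      linear_combination h1
    · simp
      field_simp
  · have hj' : z 2 ≠ 0 := hj
    refine ⟨![-y 1 / z 2, y 0 / z 2, 0], ?_⟩
    apply fin3
    · simp
      field_simp
    · simp
      field_simp
    · simp
      field_simp
      linear_combination h1

lemma cr_eq_zero_of (z v y : Fin 3 → Ω) (h : cr z v = 0) (h1 : dt z y = 0) (hz : z ≠ 0) :
    dt v y = 0 := by
  have h0 := congrFun h 0
  have h1' := congrFun h 1
  have h2 := congrFun h 2
  simp only [cr_zero, cr_one, cr_two, Pi.zero_apply] at h0 h1' h2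
  unfold dt at h1 ⊢
  obtain ⟨j, hj⟩ : ∃ j, z j ≠ 0 := by
    by_contra hc
    push Not at hc
    exact hz (funext hc)
  fin_cases j
  · have hj' : z 0 ≠ 0 := hj
    apply mul_left_cancel₀ hj'
    linear_combination v 0 * h1 - y 2 * h1' + y 1 * h2
  · have hj' : z 1 ≠ 0 := hj
    apply mul_left_cancel₀ hj'
    linear_combination v 1 * h1 + y 2 * h0 - y 0 * h2
  · have hj' : z 2 ≠ 0 := hj
    apply mul_left_cancel₀ hj'
    linear_combination v 2 * h1 - y 1 * h0 + y 0 * h1'

end

end Pool.Agent.W492.Gon
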