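import Pool.Agent.W492.Gon.Geo
import Pool.Agent.W492.Gon.Vec

set_option autoImplicit false
set_option linter.unusedSimpArgs false
set_option linter.style.haveILetI false
set_option linter.unusedSectionVars false

open MvPolynomial Pool.Agent.Helper553.Uni

namespace Pool.Agent.W492.Gon

section
variable {R : Type*} [CommRing R] [CharP R 2]

lemma sq_add3 (a b c : R) : (a + b + c) ^ 2 = a ^ 2 + b ^ 2 + c ^ 2 := by
  have h2 : (2 : R) = 0 := CharTwo.two_eq_zero
  linear_combination (a * b + b * c + a * c) * h2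

end

section
variable {Ω : Type} [Field Ω] [CharP Ω 2]

/-- `w(z) = z × z^4` -/
def w {R : Type*} [CommRing R] (z : Fin 3 → R) : Fin 3 → R := cr z (p4 z)

lemma dt_cr_left {R : Type*} [CommRing R] (u v : Fin 3 → R) : dt u (cr u v) = 0 := by
  simp only [dt, cr_zero, cr_one, cr_two]; ring

lemma dt_cr_right {R : Type*} [CommRing R] (u v : Fin 3 → R) : dt v (cr u v) = 0 := by
  simp only [dt, cr_zero, cr_one, cr_two]; ring

lemma onSurf_iff (z y : Fin 3 → Ω) : OnSurf (p2 z) y ↔ dt z y = 0 ∧ dt (p4 z) y = 0 := by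
  have h1 : p2 z 0 * y 0 ^ 2 + p2 z 1 * y 1 ^ 2 + p2 z 2 * y 2 ^ 2 = (dt z y) ^ 2 := by
    unfold dt p2
    rw [sq_add3]
    ring
  have h2 : p2 z 0 ^ 2 * y 0 + p2 z 1 ^ 2 * y 1 + p2 z 2 ^ 2 * y 2 = dt (p4 z) y := by
    unfold dt p2 p4
    ring
  unfold OnSurf
  rw [h1, h2]
  simp

lemma onSurf_w (z : Fin 3 → Ω) : OnSurf (p2 z) (w z) := by
  rw [onSurf_iff]
  exact ⟨dt_cr_left _ _, dt_cr_right _ _⟩

lemma onSurf_smul {x y : Fin 3 → Ω} (h : OnSurf x y) (μ : Ω) : OnSurf x (fun i => μ * y i) := by
  obtain ⟨h1, h2⟩ := h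
  constructor
  · linear_combination μ ^ 2 * h1
  · linear_combination μ * h2

/-- square roots of the entries of a vector -/
lemma exists_root [IsAlgClosed Ω] (x : Fin 3 → Ω) : ∃ z : Fin 3 → Ω, x = p2 z := by
  have : ∀ i, ∃ z, x i = z ^ 2 := fun i => by
    obtain ⟨z, hz⟩ := IsAlgClosed.exists_pow_nat_eq (x i) (n := 2) (by norm_num)
    exact ⟨z, hz.symm⟩
  choose z hz using this
  exact ⟨z, funext hz⟩

lemma p2_ne_zero {z : Fin 3 → Ω} (h : p2 z ≠ 0) : z ≠ 0 := by
  rintro rfl
  apply h
  funext i
  simp [p2]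

/-- the coordinate vector of a point of the parametrised part -/
def par {R : Type*} [CommRing R] (μ : R) (z : Fin 3 → R) : Coord 2 2 → R :=
  Sum.elim (p2 z) (fun i => μ * w z i)

/-- a perturbation of a point of the exceptional part -/
noncomputable def pert (z u : Fin 3 → Ω) : Coord 2 2 → Polynomial Ω :=
  Sum.elim (fun i => (Polynomial.C (z i) + Polynomial.X * Polynomial.C (u i)) ^ 2)
    (fun i => Polynomial.C (cr u (p4 z) i) + Polynomial.X ^ 3 * Polynomial.C (cr z (p4 u) i) +
      Polynomial.X ^ 4 * Polynomial.C (cr u (p4 u) i))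

lemma w_pert (z u : Fin 3 → Ω) (hz : w z = 0) (e : Ω) (i : Fin 3) :
    w (fun i => z i + e * u i) i =
      e * (cr u (p4 z) i + e ^ 3 * cr z (p4 u) i + e ^ 4 * cr u (p4 u) i) := by
  have h2 : (2 : Ω) = 0 := CharTwo.two_eq_zero
  have h4 : ∀ a b : Ω, (a + b) ^ 4 = a ^ 4 + b ^ 4 := fun a b => by
    linear_combination (2 * a ^ 3 * b + 3 * a ^ 2 * b ^ 2 + 2 * a * b ^ 3) * h2
  have h0 := congrFun hz 0
  have h1 := congrFun hz 1
  have h3 := congrFun hz 2
  simp only [w, cr_zero, cr_one, cr_two, Pi.zero_apply, p4] at h0 h1 h3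
  revert i
  apply fin3
  · simp only [w, cr_zero, p4, h4]
    linear_combination h0
  · simp only [w, cr_one, p4, h4]
    linear_combination h1
  · simp only [w, cr_two, p4, h4]
    linear_combination h3

/-- **Density.** A polynomial which vanishes on the parametrised part of the surface vanishes on
all of it. -/
theorem dense [IsAlgClosed Ω] (f : MvPolynomial (Coord 2 2) Ω)
    (hf : ∀ (μ : Ω) (z : Fin 3 → Ω), eval (par μ z) f = 0) (x y : Fin 3 → Ω) (hx : x ≠ 0)
    (h : OnSurf x y) : eval (Sum.elim x y) f = 0 := by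
  obtain ⟨z, rfl⟩ := exists_root x
  obtain ⟨h1, h2⟩ := (onSurf_iff z y).1 h
  have hz := p2_ne_zero hx
  by_cases hw : w z = 0
  · have h4z : p4 z ≠ 0 := by
      intro h0
      apply hz
      funext i
      have := congrFun h0 i
      simpa [p4] using this
    obtain ⟨u, hu⟩ := exists_cr_of_orth (p4 z) y h2 h4z
    set Q : Polynomial Ω := aeval (pert z u) f with hQ
    have hev : ∀ e : Ω, Q.eval e = eval (fun c => (pert z u c).eval e) f := by
      intro e
      have h5 := MvPolynomial.comp_aeval_apply (pert z u) (Polynomial.aeval e (R := Ω) (A := Ω)) f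
      rw [← hQ, Polynomial.coe_aeval_eq_eval] at h5
      rw [h5, MvPolynomial.aeval_eq_eval]
    have hne : ∀ e : Ω, e ≠ 0 → Q.eval e = 0 := by
      intro e he
      rw [hev]
      have : (fun c => (pert z u c).eval e) = par e⁻¹ (fun i => z i + e * u i) := by
        funext c
        rcases c with i | i
        · simp only [pert, par, Sum.elim_inl, p2, Polynomial.eval_add, Polynomial.eval_C,
            Polynomial.eval_mul, Polynomial.eval_pow, Polynomial.eval_X]
        · simp only [pert, par, Sum.elim_inr, w_pert z u hw]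
          simp only [Polynomial.eval_add, Polynomial.eval_C, Polynomial.eval_mul,
            Polynomial.eval_pow, Polynomial.eval_X]
          field_simp
      rw [this]
      exact hf _ _
    have hQ0 : Q = 0 := by
      apply Polynomial.eq_zero_of_infinite_isRoot
      apply Set.Infinite.mono (s := {e : Ω | e ≠ 0})
      · intro e he
        exact hne e he
      · haveI : Infinite Ω := IsAlgClosed.instInfinite
        exact (Set.finite_singleton (0 : Ω)).infinite_compl
    have h0 := hev 0
    rw [hQ0, Polynomial.eval_zero] at h0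
    have : (fun c => (pert z u c).eval 0) = Sum.elim (p2 z) y := by
      funext c
      rcases c with i | i
      · simp [pert, p2]
      · simp [pert, hu]
    rw [this] at h0
    exact h0.symm
  · obtain ⟨μ, hμ⟩ := exists_mul_of_orth z (p4 z) y h1 h2 hw
    have : Sum.elim (p2 z) y = par μ z := by
      funext c
      rcases c with i | i
      · rfl
      · simp only [Sum.elim_inr, par]
        exact hμ i
    rw [this]
    exact hf _ _

end

end Pool.Agent.W492.Gon
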