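import Pool.Agent.W492.Gon.Defs

set_option autoImplicit false
set_option linter.unusedSimpArgs false
set_option linter.style.haveILetI false
set_option linter.unusedSectionVars false

open MvPolynomial Pool.Agent.Helper553.Uni

namespace Pool.Agent.W492.Gon

section
variable {k : Type} [Field k] {m n : ℕ} {K : Type} [Field K] [Algebra k K]

/-- evaluation of a bihomogeneous polynomial at a rescaled vector -/
lemma aeval_scale {f : MvPolynomial (Coord m n) k} {d : ℕ × ℕ}
    (hf : IsWeightedHomogeneous (bideg m n) f d) (a b : K) (p : Coord m n → K) :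
    aeval (fun c => Sum.elim (fun _ => a) (fun _ => b) c * p c) f =
      a ^ d.1 * b ^ d.2 * aeval p f := by
  rw [aeval_def, aeval_def, eval₂_eq', eval₂_eq', Finset.mul_sum]
  refine Finset.sum_congr rfl fun s hs => ?_
  have hw : Finsupp.weight (bideg m n) s = d := hf (mem_support_iff.1 hs)
  have hsum : Finsupp.weight (bideg m n) s = ∑ c, s c • bideg m n c := by
    rw [Finsupp.weight_apply]
    exact Finsupp.sum_fintype _ _ (by simp)
  rw [hsum, Fintype.sum_sum_type] at hw
  have h1 : ∑ i : Fin (m + 1), s (Sum.inl i) = d.1 := by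
    rw [← hw]
    simp [bideg, Prod.fst_sum]
  have h2 : ∑ i : Fin (n + 1), s (Sum.inr i) = d.2 := by
    rw [← hw]
    simp [bideg, Prod.snd_sum]
  simp only [mul_pow, Finset.prod_mul_distrib]
  rw [Fintype.prod_sum_type (fun c => Sum.elim (fun _ => a) (fun _ => b) c ^ s c)]
  simp only [Sum.elim_inl, Sum.elim_inr, Finset.prod_pow_eq_pow_sum, h1, h2]
  ring

lemma aeval_scale_eq_zero {f : MvPolynomial (Coord m n) k} (hf : Bihomogeneous f) (a b : K)
    (ha : a ≠ 0) (hb : b ≠ 0) (p : Coord m n → K) :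
    aeval (fun c => Sum.elim (fun _ => a) (fun _ => b) c * p c) f = 0 ↔ aeval p f = 0 := by
  obtain ⟨d, hd⟩ := hf
  rw [aeval_scale hd, mul_eq_zero, or_iff_right]
  exact mul_ne_zero (pow_ne_zero _ ha) (pow_ne_zero _ hb)

/-- a generic point of `V` in some field gives a function field -/
theorem exists_functionField {V : BiProj k m n} (η : Coord m n → K) (hη : η ∈ V.points K)
    (hgen : ∀ f : MvPolynomial (Coord m n) k, Bihomogeneous f → aeval η f = 0 →
      ∀ q ∈ V.points (AlgebraicClosure k), aeval q f = 0) :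
    ∃ (L : Type) (_ : Field L) (_ : Algebra k L) (ξ : Coord m n → L), IsFunctionField V L ξ := by
  obtain ⟨⟨i₀, hi⟩, ⟨j₀, hj⟩, heq⟩ := hη
  set L := IntermediateField.adjoin k
    (ratios (fun i => η (Sum.inl i)) ∪ ratios (fun j => η (Sum.inr j))) with hL
  have m1 : ∀ i, η (Sum.inl i) / η (Sum.inl i₀) ∈ L := fun i =>
    IntermediateField.subset_adjoin _ _ (Or.inl ⟨i, i₀, hi, rfl⟩)
  have m2 : ∀ j, η (Sum.inr j) / η (Sum.inr j₀) ∈ L := fun j =>
    IntermediateField.subset_adjoin _ _ (Or.inr ⟨j, j₀, hj, rfl⟩)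
  set ξ : Coord m n → L := Sum.elim (fun i => ⟨_, m1 i⟩) (fun j => ⟨_, m2 j⟩) with hξ
  have hco : ∀ c, ((ξ c : L) : K) =
      Sum.elim (fun _ => (η (Sum.inl i₀))⁻¹) (fun _ => (η (Sum.inr j₀))⁻¹) c * η c := by
    rintro (i | j)
    · simp [hξ, div_eq_inv_mul]
    · simp [hξ, div_eq_inv_mul]
  have hev : ∀ f : MvPolynomial (Coord m n) k, ((aeval ξ f : L) : K) =
      aeval (fun c => ((ξ c : L) : K)) f := by
    intro f
    exact MvPolynomial.comp_aeval_apply ξ L.val f
  have hz : ∀ f : MvPolynomial (Coord m n) k, Bihomogeneous f →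
      (aeval ξ f = 0 ↔ aeval η f = 0) := by
    intro f hf
    rw [← aeval_scale_eq_zero hf _ _ (inv_ne_zero hi) (inv_ne_zero hj) η]
    rw [← Subtype.coe_inj, hev f, ZeroMemClass.coe_zero]
    simp only [hco]
  refine ⟨L, inferInstance, inferInstance, ξ, ⟨⟨i₀, ?_⟩, ⟨j₀, ?_⟩, ?_⟩, ?_, ?_⟩
  · intro h0
    have := hco (Sum.inl i₀)
    rw [h0] at this
    simp [hi] at this
  · intro h0
    have := hco (Sum.inr j₀)
    rw [h0] at this
    simp [hj] at this
  · intro f hf
    exact (hz f (V.bihom f hf)).2 (heq f hf)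
  · intro f hf h
    exact hgen f hf ((hz f hf).1 h)
  · -- generation
    have key : ∀ x : K, x ∈ L → ∀ hx : x ∈ L, (⟨x, hx⟩ : L) ∈ IntermediateField.adjoin k
        (ratios (fun i => ξ (Sum.inl i)) ∪ ratios (fun j => ξ (Sum.inr j))) := by
      intro x hx0
      have hs : (L : IntermediateField k K) ≤ (IntermediateField.adjoin k
        (ratios (fun i => ξ (Sum.inl i)) ∪ ratios (fun j => ξ (Sum.inr j)))).map L.val := by
        refine IntermediateField.adjoin_le_iff.2 ?_
        rintro z (⟨i, j, hj', rfl⟩ | ⟨i, j, hj', rfl⟩)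
        · refine ⟨ξ (Sum.inl i) / ξ (Sum.inl j), IntermediateField.subset_adjoin _ _
            (Or.inl ⟨i, j, ?_, rfl⟩), ?_⟩
          · intro h0
            have h1 := hco (Sum.inl j)
            have h2 : ξ (Sum.inl j) = 0 := h0
            have h3 : η (Sum.inl j) ≠ 0 := hj'
            rw [h2] at h1
            exact (mul_ne_zero (inv_ne_zero hi) h3) h1.symm
          · show ((ξ (Sum.inl i) / ξ (Sum.inl j) : L) : K) = _
            rw [IntermediateField.coe_div, hco, hco]
            simp only [Sum.elim_inl]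
            field_simp
        · refine ⟨ξ (Sum.inr i) / ξ (Sum.inr j), IntermediateField.subset_adjoin _ _
            (Or.inr ⟨i, j, ?_, rfl⟩), ?_⟩
          · intro h0
            have h1 := hco (Sum.inr j)
            have h2 : ξ (Sum.inr j) = 0 := h0
            have h3 : η (Sum.inr j) ≠ 0 := hj'
            rw [h2] at h1
            exact (mul_ne_zero (inv_ne_zero hj) h3) h1.symm
          · show ((ξ (Sum.inr i) / ξ (Sum.inr j) : L) : K) = _
            rw [IntermediateField.coe_div, hco, hco]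
            simp only [Sum.elim_inr]
            field_simp
      intro hx
      obtain ⟨y, hy, hyx⟩ := hs hx
      have : y = ⟨x, hx⟩ := Subtype.ext hyx
      rw [← this]
      exact hy
    rw [eq_top_iff]
    rintro ⟨x, hx⟩ -
    exact key x hx hx

end

end Pool.Agent.W492.Gon
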