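import Pool.Agent.W492.Gon.Dens

set_option autoImplicit false
set_option linter.unusedSimpArgs false
set_option linter.style.haveILetI false
set_option linter.unusedSectionVars false

open MvPolynomial Pool.Agent.Helper553.Uni

namespace Pool.Agent.W492.Gon

section
variable {Ω : Type} [Field Ω] [Infinite Ω]

lemma exists_pow4_ne : ∃ t : Ω, t ^ 4 ≠ t := by
  by_contra hc
  push Not at hc
  have h : (Polynomial.X ^ 4 - Polynomial.X : Polynomial Ω) = 0 := by
    apply Polynomial.eq_zero_of_infinite_isRoot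
    apply Set.Infinite.mono (s := Set.univ) _ Set.infinite_univ
    intro t _
    show Polynomial.eval t _ = 0
    simp [hc t]
  have h1 := congrArg (fun p => Polynomial.coeff p 4) h
  simp [Polynomial.coeff_X] at h1

/-- the universal parametrised vector -/
noncomputable def upar (Ω : Type) [Field Ω] : Coord 2 2 → MvPolynomial (Option (Fin 3)) Ω :=
  par (X none) (fun i => X (some i))

lemma par_map {R S : Type*} [CommRing R] [CommRing S] (φ : R →+* S) (μ : R) (z : Fin 3 → R)
    (c : Coord 2 2) : φ (par μ z c) = par (φ μ) (fun i => φ (z i)) c := by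
  rcases c with i | i
  · simp [par, p2]
  · simp only [par, Sum.elim_inr, map_mul, w]
    rw [cr_map]
    simp only [p4, map_pow]
    rfl

lemma eval_upar (f : MvPolynomial (Coord 2 2) Ω) (μ : Ω) (z : Fin 3 → Ω) :
    eval (fun o => Option.elim o μ z) (aeval (upar Ω) f) = eval (par μ z) f := by
  have h5 := MvPolynomial.comp_aeval_apply (upar Ω)
    (MvPolynomial.aeval (fun o => Option.elim o μ z) : MvPolynomial (Option (Fin 3)) Ω →ₐ[Ω] Ω) f
  rw [MvPolynomial.aeval_eq_eval, MvPolynomial.aeval_eq_eval] at h5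
  rw [h5]
  congr 1
  congr 1
  funext c
  unfold upar
  rw [par_map (eval (fun o => Option.elim o μ z)) (X none) (fun i => X (some i)) c]
  simp

lemma exists_w_ne : ∃ z : Fin 3 → Ω, w z 0 ≠ 0 := by
  obtain ⟨t, ht⟩ := exists_pow4_ne (Ω := Ω)
  refine ⟨![0, 1, t], ?_⟩
  simp [w, p4, sub_eq_zero, ht]

lemma upar_inr_ne : upar Ω (Sum.inr 0) ≠ 0 := by
  intro h
  obtain ⟨z, hz⟩ := exists_w_ne (Ω := Ω)
  have h1 := eval_upar (X (Sum.inr 0)) 1 z
  rw [aeval_X, h, map_zero, eval_X] at h1
  simp only [par, Sum.elim_inr, one_mul] at h1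
  exact hz h1.symm

lemma aeval_upar_eq_zero (f : MvPolynomial (Coord 2 2) Ω)
    (h : ∀ (μ : Ω) (z : Fin 3 → Ω), μ ≠ 0 → w z ≠ 0 → eval (par μ z) f = 0) :
    aeval (upar Ω) f = 0 := by
  have h1 : aeval (upar Ω) f * upar Ω (Sum.inr 0) = 0 := by
    apply MvPolynomial.funext
    intro v
    have hv : v = fun o => Option.elim o (v none) (fun i => v (some i)) := by
      funext o
      cases o <;> rfl
    rw [map_mul, map_zero, hv, eval_upar]
    have h2 : eval (fun o => Option.elim o (v none) (fun i => v (some i))) (upar Ω (Sum.inr 0)) =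
        v none * w (fun i => v (some i)) 0 := by
      have h3 := eval_upar (X (Sum.inr 0)) (v none) (fun i => v (some i))
      rw [aeval_X, eval_X] at h3
      rw [h3]
      rfl
    rw [h2]
    by_cases hμ : v none = 0
    · rw [hμ]; simp
    · by_cases hw : w (fun i => v (some i)) = 0
      · rw [hw]; simp
      · rw [h _ _ hμ hw, zero_mul]
  rcases mul_eq_zero.1 h1 with h2 | h2
  · exact h2
  · exact absurd h2 upar_inr_ne

lemma par_all (f : MvPolynomial (Coord 2 2) Ω)
    (h : ∀ (μ : Ω) (z : Fin 3 → Ω), μ ≠ 0 → w z ≠ 0 → eval (par μ z) f = 0) (μ : Ω)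
    (z : Fin 3 → Ω) : eval (par μ z) f = 0 := by
  rw [← eval_upar, aeval_upar_eq_zero f h, map_zero]

lemma ne_zero_of_w {R : Type*} [CommRing R] {z : Fin 3 → R} (h : w z ≠ 0) : z ≠ 0 := by
  rintro rfl
  apply h
  funext i
  revert i
  apply fin3 <;> simp [w, p4]

end

section
variable {k Ω : Type} [Field k] [Field Ω] [Algebra k Ω] [CharP Ω 2]

lemma exists_ne {R : Type*} [Zero R] {v : Fin 3 → R} (h : v ≠ 0) : ∃ i, v i ≠ 0 := by
  by_contra hc
  push Not at hc
  exact h (funext hc)

lemma par_mem (μ : Ω) (z : Fin 3 → Ω) (hμ : μ ≠ 0) (hw : w z ≠ 0) :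
    par μ z ∈ (surf k).points Ω := by
  rw [mem_surf]
  refine ⟨?_, ?_, ?_⟩
  · obtain ⟨i, hi⟩ := exists_ne (ne_zero_of_w hw)
    exact ⟨i, pow_ne_zero 2 hi⟩
  · obtain ⟨i, hi⟩ := exists_ne hw
    exact ⟨i, mul_ne_zero hμ hi⟩
  · exact onSurf_smul (onSurf_w z) μ

/-- a polynomial vanishing at the parametrised points vanishes on the surface -/
lemma vanish_of_par [IsAlgClosed Ω] (f : MvPolynomial (Coord 2 2) Ω)
    (h : ∀ (μ : Ω) (z : Fin 3 → Ω), μ ≠ 0 → w z ≠ 0 → eval (par μ z) f = 0) :
    ∀ p ∈ (surf k).points Ω, eval p f = 0 := by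
  haveI : Infinite Ω := IsAlgClosed.instInfinite
  intro p hp
  rw [mem_surf] at hp
  obtain ⟨⟨i, hi⟩, -, hs⟩ := hp
  have := dense f (par_all f h) _ _ (fun h0 => hi (congrFun h0 i)) hs
  rw [Sum.elim_comp_inl_inr p |>.symm]
  exact this

end

/-- the surface is geometrically irreducible -/
theorem surf_irreducible {k : Type} [Field k] [CharP k 2] : (surf k).GeomIrreducible := by
  haveI : CharP (AlgebraicClosure k) 2 := charP_of_injective_algebraMap
    (algebraMap k (AlgebraicClosure k)).injective 2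
  haveI : Infinite (AlgebraicClosure k) := IsAlgClosed.instInfinite
  refine ⟨?_, ?_⟩
  · obtain ⟨z, hz⟩ := exists_w_ne (Ω := AlgebraicClosure k)
    exact ⟨par 1 z, par_mem 1 z one_ne_zero (fun h => hz (congrFun h 0))⟩
  · intro f g hfg
    have h1 : aeval (upar (AlgebraicClosure k)) (f * g) = 0 := by
      apply aeval_upar_eq_zero
      intro μ z hμ hw
      rw [map_mul]
      exact hfg _ (par_mem μ z hμ hw)
    rw [map_mul] at h1
    rcases mul_eq_zero.1 h1 with h2 | h2
    · left
      apply vanish_of_par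
      intro μ z _ _
      rw [← eval_upar, h2, map_zero]
    · right
      apply vanish_of_par
      intro μ z _ _
      rw [← eval_upar, h2, map_zero]

end Pool.Agent.W492.Gon
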