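import Pool.Agent.W492.Gon.Core
import Pool.Agent.W492.Gon.Irr
import Pool.Agent.W492.Gon.FF

set_option autoImplicit false
set_option linter.unusedSimpArgs false
set_option linter.style.haveILetI false
set_option linter.unusedSectionVars false

open MvPolynomial Pool.Agent.Helper553.Uni

namespace Pool.Agent.W492.Gon

section
variable {k K : Type} [Field k] [CharP k 2] [Field K] [Algebra k K]

theorem nonrat (s : Fin 2 → K) (hs : AlgebraicIndependent k s)
    (htop : IntermediateField.adjoin k (Set.range s) = ⊤)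
    (x y : Fin 3 → K) (hx : x ≠ 0) (hy : y ≠ 0) (hxy : OnSurf x y)
    (hgen : IntermediateField.adjoin k (ratios x ∪ ratios y) = ⊤) : False := by
  let φ : MvPolynomial (Fin 2) k →ₐ[k] K := aeval s
  have hφ : Function.Injective φ := hs
  letI alg : Algebra (MvPolynomial (Fin 2) k) K := φ.toRingHom.toAlgebra
  have hmap : ∀ p, algebraMap (MvPolynomial (Fin 2) k) K p = aeval s p := fun p => rfl
  haveI : IsScalarTower k (MvPolynomial (Fin 2) k) K :=
    IsScalarTower.of_algebraMap_eq (fun a => (φ.commutes a).symm)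
  haveI : FaithfulSMul (MvPolynomial (Fin 2) k) K :=
    (faithfulSMul_iff_algebraMap_injective _ _).2 hφ
  haveI : IsFractionRing (MvPolynomial (Fin 2) k) K := by
    refine IsFractionRing.of_field _ _ fun z => ?_
    have hz : z ∈ IntermediateField.adjoin k (Set.range s) := by rw [htop]; trivial
    rw [IntermediateField.mem_adjoin_range_iff] at hz
    obtain ⟨r, t, h⟩ := hz
    exact ⟨r, t, h.symm ▸ rfl⟩
  obtain ⟨ρ, A, hρ, hA, hxA⟩ := exists_prim (P := MvPolynomial (Fin 2) k) x hx
  obtain ⟨τ, B, hτ, hB, hyB⟩ := exists_prim (P := MvPolynomial (Fin 2) k) y hy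
  have hA0 : A ≠ 0 := by
    rintro rfl
    apply hx
    funext i
    rw [hxA]
    simp
  have hB0 : B ≠ 0 := by
    rintro rfl
    apply hy
    funext i
    rw [hyB]
    simp
  obtain ⟨e1, e2⟩ := hxy
  have hinj : Function.Injective (algebraMap (MvPolynomial (Fin 2) k) K) := hφ
  have h1 : dt A (p2 B) = 0 := by
    apply hinj
    rw [map_zero]
    have h3 : ρ * τ ^ 2 * algebraMap (MvPolynomial (Fin 2) k) K (dt A (p2 B)) = 0 := by
      rw [hxA, hxA, hxA, hyB, hyB, hyB] at e1
      simp only [dt, p2, map_add, map_mul, map_pow]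
      linear_combination e1
    exact (mul_eq_zero.1 h3).resolve_left (mul_ne_zero hρ (pow_ne_zero 2 hτ))
  have h2 : dt B (p2 A) = 0 := by
    apply hinj
    rw [map_zero]
    have h3 : ρ ^ 2 * τ * algebraMap (MvPolynomial (Fin 2) k) K (dt B (p2 A)) = 0 := by
      rw [hxA, hxA, hxA, hyB, hyB, hyB] at e2
      simp only [dt, p2, map_add, map_mul, map_pow]
      linear_combination e2
    exact (mul_eq_zero.1 h3).resolve_left (mul_ne_zero (pow_ne_zero 2 hρ) hτ)
  rcases dichotomy A B hA hB hA0 hB0 h1 h2 with h | h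
  · exact nonrat_aux y x (by rw [Set.union_comm]; exact hgen) B A τ ρ hτ hρ hyB hxA hA hA0 h2 h
  · exact nonrat_aux x y hgen A B ρ τ hρ hτ hxA hyB hB hB0 h1 h

end

end Pool.Agent.W492.Gon
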