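import Pool.Agent.W492.Gon.Fin1

set_option autoImplicit false
set_option linter.unusedSimpArgs false
set_option linter.style.haveILetI false
set_option linter.unusedSectionVars false

open MvPolynomial Pool.Agent.Helper553.Uni

namespace Pool.Agent.W492.Gon

section
variable {k : Type} [Field k] {m n : ℕ}

/-- homogenisation, in the first block of coordinates, with respect to the coordinate `j` -/
noncomputable def homog (n : ℕ) (j : Fin (m + 1)) (p : MvPolynomial (Fin (m + 1)) k) :
    MvPolynomial (Coord m n) k :=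
  ∑ s ∈ p.support, C (coeff s p) * X (Sum.inl j) ^ (p.totalDegree - s.degree) *
    ∏ i, X (Sum.inl i) ^ (s i)

lemma homog_bihom (j : Fin (m + 1)) (p : MvPolynomial (Fin (m + 1)) k) :
    Bihomogeneous (homog n j p) := by
  refine ⟨(p.totalDegree, 0), ?_⟩
  refine IsWeightedHomogeneous.sum _ _ _ fun s hs => ?_
  have h1 := ((isWeightedHomogeneous_C (bideg m n) (coeff s p)).mul
    ((isWeightedHomogeneous_X k (bideg m n) (Sum.inl j)).pow (p.totalDegree - s.degree))).mul
    (IsWeightedHomogeneous.prod Finset.univ (fun i => (X (Sum.inl i) ^ (s i) :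
      MvPolynomial (Coord m n) k)) (fun i => s i • bideg m n (Sum.inl i))
      (fun i _ => (isWeightedHomogeneous_X k (bideg m n) (Sum.inl i)).pow (s i)))
  have h2 : s.degree ≤ p.totalDegree := by
    have := le_totalDegree hs
    rwa [Finsupp.degree_eq_sum, ← Finsupp.sum_fintype s (fun _ e => e) (by simp)]
  have h3 : ∑ i, s i = s.degree := by rw [Finsupp.degree_eq_sum]
  have h4 : (0 : ℕ × ℕ) + (p.totalDegree - s.degree) • bideg m n (Sum.inl j) +
      ∑ i, s i • bideg m n (Sum.inl i) = (p.totalDegree, 0) := by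
    apply Prod.ext
    · simp [bideg, Prod.fst_sum, h3]
      omega
    · simp [bideg, Prod.snd_sum]
  rw [h4] at h1
  exact h1

lemma aeval_homog {K : Type} [Field K] [Algebra k K] (j : Fin (m + 1))
    (p : MvPolynomial (Fin (m + 1)) k) (q : Coord m n → K) (hq : q (Sum.inl j) ≠ 0) :
    aeval q (homog n j p) = q (Sum.inl j) ^ p.totalDegree *
      aeval (fun i => q (Sum.inl i) / q (Sum.inl j)) p := by
  rw [homog, map_sum, aeval_def (p := p), eval₂_eq', Finset.mul_sum]
  refine Finset.sum_congr rfl fun s hs => ?_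
  have h2 : s.degree ≤ p.totalDegree := by
    have := le_totalDegree hs
    rwa [Finsupp.degree_eq_sum, ← Finsupp.sum_fintype s (fun _ e => e) (by simp)]
  have h3 : ∏ i, q (Sum.inl j) ^ (s i) = q (Sum.inl j) ^ s.degree := by
    rw [Finset.prod_pow_eq_pow_sum, Finsupp.degree_eq_sum]
  have h4 : q (Sum.inl j) ^ p.totalDegree = q (Sum.inl j) ^ (p.totalDegree - s.degree) *
      q (Sum.inl j) ^ s.degree := by
    rw [← pow_add]
    congr 1
    omega
  simp only [map_mul, map_prod, map_pow, aeval_X, aeval_C, div_pow, Finset.prod_div_distrib]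
  rw [h3, h4]
  have h5 : q (Sum.inl j) ^ s.degree ≠ 0 := pow_ne_zero _ hq
  field_simp

/-- algebraic relations between ratios of coordinates of the generic point hold everywhere -/
lemma relation_transfer {V : BiProj k m n} {K : Type} [Field K] [Algebra k K]
    {ξ : Coord m n → K} (h : IsFunctionField V K ξ) (j : Fin (m + 1)) (hj : ξ (Sum.inl j) ≠ 0)
    (p : MvPolynomial (Fin (m + 1)) k)
    (hp : aeval (fun i => ξ (Sum.inl i) / ξ (Sum.inl j)) p = 0)
    (q : Coord m n → AlgebraicClosure k) (hq : q ∈ V.points (AlgebraicClosure k))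
    (hqj : q (Sum.inl j) ≠ 0) : aeval (fun i => q (Sum.inl i) / q (Sum.inl j)) p = 0 := by
  have h1 := h.generic (homog n j p) (homog_bihom j p)
    (by rw [aeval_homog j p ξ hj, hp, mul_zero]) q hq
  rw [aeval_homog j p q hqj] at h1
  exact (mul_eq_zero.1 h1).resolve_left (pow_ne_zero _ hqj)

lemma coord_ne_zero {V : BiProj k m n} {K : Type} [Field K] [Algebra k K]
    {ξ : Coord m n → K} (h : IsFunctionField V K ξ) (c : Coord m n)
    (q : Coord m n → AlgebraicClosure k) (hq : q ∈ V.points (AlgebraicClosure k))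
    (hc : q c ≠ 0) : ξ c ≠ 0 := by
  intro h0
  apply hc
  have h1 := h.generic (X c) ⟨_, isWeightedHomogeneous_X k (bideg m n) c⟩
    (by rw [aeval_X, h0]) q hq
  rwa [aeval_X] at h1

end

/-- `z ↦ (μ, z)`-parametrised points are compatible with algebra maps -/
lemma aeval_par_comp {k : Type} [Field k] {R S : Type} [CommRing R] [CommRing S] [Algebra k R]
    [Algebra k S] (φ : R →ₐ[k] S) (μ : R) (z : Fin 3 → R) (f : MvPolynomial (Coord 2 2) k) :
    φ (aeval (par μ z) f) = aeval (par (φ μ) (fun i => φ (z i))) f := by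
  rw [MvPolynomial.comp_aeval_apply]
  congr 2
  funext c
  exact par_map φ.toRingHom μ z c

section
variable {k : Type} [Field k] {Ω : Type} [Field Ω] [Algebra k Ω]

/-- rescaling the second block -/
lemma aeval_par_smul (f : MvPolynomial (Coord 2 2) k) (hf : Bihomogeneous f) (μ : Ω) (hμ : μ ≠ 0)
    (z : Fin 3 → Ω) : aeval (par μ z) f = 0 ↔ aeval (par 1 z) f = 0 := by
  rw [← aeval_scale_eq_zero hf 1 μ one_ne_zero hμ (par 1 z)]
  have : (fun c => Sum.elim (fun _ => (1 : Ω)) (fun _ => μ) c * par 1 z c) = par μ z := by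
    funext c
    rcases c with i | i
    · simp [par]
    · simp [par]
  rw [this]

end

end Pool.Agent.W492.Gon
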