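import Pool.Agent.W492.Gon.Defs

set_option autoImplicit false
set_option linter.unusedSimpArgs false
set_option linter.style.haveILetI false

open MvPolynomial Pool.Agent.Helper553.Uni

namespace Pool.Agent.W492.Gon

section
variable {k : Type} [Field k]

/-- `∑ x_i y_i ^ 2`. -/
noncomputable def eqF (k : Type) [Field k] : MvPolynomial (Coord 2 2) k :=
  ∑ i : Fin 3, X (Sum.inl i) * X (Sum.inr i) ^ 2

/-- `∑ x_i ^ 2 y_i`. -/
noncomputable def eqG (k : Type) [Field k] : MvPolynomial (Coord 2 2) k :=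
  ∑ i : Fin 3, X (Sum.inl i) ^ 2 * X (Sum.inr i)

lemma eqF_bihom : Bihomogeneous (eqF k) := by
  refine ⟨(1, 2), ?_⟩
  refine IsWeightedHomogeneous.sum _ _ _ fun i _ => ?_
  have h := (isWeightedHomogeneous_X k (bideg 2 2) (Sum.inl i)).mul
    ((isWeightedHomogeneous_X k (bideg 2 2) (Sum.inr i)).pow 2)
  simpa [bideg] using h

lemma eqG_bihom : Bihomogeneous (eqG k) := by
  refine ⟨(2, 1), ?_⟩
  refine IsWeightedHomogeneous.sum _ _ _ fun i _ => ?_
  have h := ((isWeightedHomogeneous_X k (bideg 2 2) (Sum.inl i)).pow 2).mul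
    (isWeightedHomogeneous_X k (bideg 2 2) (Sum.inr i))
  simpa [bideg] using h

/-- The surface `∑ x_i y_i ^ 2 = ∑ x_i ^ 2 y_i = 0` in the product of two planes. -/
noncomputable def surf (k : Type) [Field k] : BiProj k 2 2 where
  eqs := {eqF k, eqG k}
  bihom := by
    rintro f (rfl | rfl)
    · exact eqF_bihom
    · exact eqG_bihom

/-- the equations of the surface for a coordinate vector -/
def OnSurf {K : Type} [Field K] (x y : Fin 3 → K) : Prop :=
  x 0 * y 0 ^ 2 + x 1 * y 1 ^ 2 + x 2 * y 2 ^ 2 = 0 ∧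
  x 0 ^ 2 * y 0 + x 1 ^ 2 * y 1 + x 2 ^ 2 * y 2 = 0

lemma mem_surf {K : Type} [Field K] [Algebra k K] (p : Coord 2 2 → K) :
    p ∈ (surf k).points K ↔ (∃ i, p (Sum.inl i) ≠ 0) ∧ (∃ j, p (Sum.inr j) ≠ 0) ∧
      OnSurf (fun i => p (Sum.inl i)) (fun i => p (Sum.inr i)) := by
  unfold BiProj.points surf OnSurf
  simp [eqF, eqG, Fin.sum_univ_three]

lemma mem_preimage {K : Type} [Field K] [Algebra k K] (a : Fin 3 → k) (V : BiProj k 2 2)
    (p : Coord 2 2 → K) :
    p ∈ (preimage V a).points K ↔ p ∈ V.points K ∧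
      algebraMap k K (a 0) * p (Sum.inl 0) + algebraMap k K (a 1) * p (Sum.inl 1) +
        algebraMap k K (a 2) * p (Sum.inl 2) = 0 := by
  unfold BiProj.points preimage
  simp only [Set.mem_ofPred_eq, Set.mem_insert_iff, forall_eq_or_imp, linForm, map_add, map_mul,
    aeval_X, Fin.sum_univ_three, aeval_C, Nat.reduceAdd]
  tauto

/-- the surface is smooth of dimension two -/
theorem surf_smooth [CharP k 2] : (surf k).SmoothOfDim 2 := by
  refine ⟨2, rfl, ?_⟩
  intro p hp
  obtain ⟨⟨i, hi⟩, ⟨j, hj⟩, -⟩ := (mem_surf p).1 hp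
  haveI : CharP (MvPolynomial (Coord 2 2) k) 2 := inferInstance
  have h2 : (2 : MvPolynomial (Coord 2 2) k) = 0 := CharTwo.two_eq_zero
  refine ⟨![eqF k, eqG k], 1, ![Sum.inl j, Sum.inr i], ?_, by simp, ?_, ?_⟩
  · intro l
    fin_cases l
    · exact Ideal.subset_span (by simp [surf])
    · exact Ideal.subset_span (by simp [surf])
  · rintro f (rfl | rfl)
    · rw [one_mul]
      exact Ideal.subset_span ⟨0, rfl⟩
    · rw [one_mul]
      exact Ideal.subset_span ⟨1, rfl⟩
  · have e1 : pderiv (Sum.inl j) (eqF k) = X (Sum.inr j) ^ 2 := by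
      unfold eqF
      rw [map_sum, Finset.sum_eq_single j]
      · simp [Derivation.leibniz, pderiv_X, Pi.single_apply]
      · intro b _ hb
        simp [Derivation.leibniz, pderiv_X, Pi.single_apply, hb, Ne.symm hb]
      · simp
    have e2 : pderiv (Sum.inr i) (eqF k) = 0 := by
      unfold eqF
      rw [map_sum]
      refine Finset.sum_eq_zero fun b _ => ?_
      simp [Derivation.leibniz, pderiv_X, Pi.single_apply, Derivation.leibniz_pow, h2]
    have e3 : pderiv (Sum.inl j) (eqG k) = 0 := by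
      unfold eqG
      rw [map_sum]
      refine Finset.sum_eq_zero fun b _ => ?_
      simp [Derivation.leibniz, pderiv_X, Pi.single_apply, Derivation.leibniz_pow, h2]
    have e4 : pderiv (Sum.inr i) (eqG k) = X (Sum.inl i) ^ 2 := by
      unfold eqG
      rw [map_sum, Finset.sum_eq_single i]
      · simp [Derivation.leibniz, pderiv_X, Pi.single_apply]
      · intro b _ hb
        simp [Derivation.leibniz, pderiv_X, Pi.single_apply, hb, Ne.symm hb]
      · simp
    rw [Matrix.det_fin_two]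
    simp only [Matrix.of_apply, Matrix.cons_val_zero, Matrix.cons_val_one, e1, e2, e3, e4, map_zero,
      map_pow, aeval_X, mul_zero, sub_zero]
    exact mul_ne_zero (pow_ne_zero 2 hj) (pow_ne_zero 2 hi)

end

end Pool.Agent.W492.Gon
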