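import Pool.Agent.W492.Gon.SurfDeg

set_option autoImplicit false
set_option linter.unusedSimpArgs false
set_option linter.style.haveILetI false
set_option linter.unusedSectionVars false

open MvPolynomial Pool.Agent.Helper553.Uni

namespace Pool.Agent.W492.Gon

section
variable {R : Type*} [CommRing R]

/-- the Moore determinant of a vector, for the field with four elements -/
def moore (a : Fin 3 → R) : R :=
  a 0 * (a 1 ^ 4 * a 2 ^ 16 - a 2 ^ 4 * a 1 ^ 16) - a 1 * (a 0 ^ 4 * a 2 ^ 16 - a 2 ^ 4 * a 0 ^ 16) +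
    a 2 * (a 0 ^ 4 * a 1 ^ 16 - a 1 ^ 4 * a 0 ^ 16)

lemma moore_map {S : Type*} [CommRing S] (φ : R →+* S) (a : Fin 3 → R) :
    φ (moore a) = moore (fun i => φ (a i)) := by
  simp [moore]

lemma moore_p2 [CharP R 2] (b : Fin 3 → R) : moore (p2 b) = moore b ^ 2 := by
  have h2 : (2 : R) = 0 := CharTwo.two_eq_zero
  have hs : ∀ x y z : R, (x - y + z) ^ 2 = x ^ 2 - y ^ 2 + z ^ 2 := by
    intro x y z
    linear_combination (y ^ 2 - x * y + x * z - y * z) * h2
  have hm : ∀ x y : R, (x - y) ^ 2 = x ^ 2 - y ^ 2 := by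
    intro x y
    linear_combination (y ^ 2 - x * y) * h2
  unfold moore p2
  rw [hs, mul_pow, mul_pow, mul_pow, hm, hm, hm]
  ring

end

section
variable {Ω : Type} [Field Ω] [CharP Ω 2]

lemma pow4_add (a b c : Ω) : (a + b + c) ^ 4 = a ^ 4 + b ^ 4 + c ^ 4 := by
  have h : (a + b + c) ^ 4 = ((a + b + c) ^ 2) ^ 2 := by ring
  rw [h, sq_add3, sq_add3]
  ring

lemma pow16_add (a b c : Ω) : (a + b + c) ^ 16 = a ^ 16 + b ^ 16 + c ^ 16 := by
  have h : (a + b + c) ^ 16 = ((a + b + c) ^ 4) ^ 4 := by ring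
  rw [h, pow4_add, pow4_add]
  ring

/-- points of a general line have `w z ≠ 0` -/
lemma w_ne_zero_of_moore (b z : Fin 3 → Ω) (hb : moore b ≠ 0) (hz : z ≠ 0) (h : dt b z = 0) :
    w z ≠ 0 := by
  intro hw
  obtain ⟨j, hj⟩ := exists_ne hz
  -- `z ^ 4 = c z`
  have hp := prop_of_cr _ _ hw
  have h4 : dt (p4 b) (p4 z) = 0 := by
    have : dt (p4 b) (p4 z) = (dt b z) ^ 4 := by
      unfold dt p4
      rw [pow4_add]
      ring
    rw [this, h]
    simp
  have h16 : dt (p4 (p4 b)) (p4 (p4 z)) = 0 := by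
    have : dt (p4 (p4 b)) (p4 (p4 z)) = (dt (p4 b) (p4 z)) ^ 4 := by
      unfold dt p4
      rw [pow4_add]
      ring
    rw [this, h4]
    simp
  set c := z j ^ 4 / z j with hc
  have hc0 : c ≠ 0 := div_ne_zero (pow_ne_zero 4 hj) hj
  have e4 : ∀ i, z i ^ 4 = c * z i := by
    intro i
    have := hp j i
    simp only [p4] at this
    rw [hc, div_mul_eq_mul_div, eq_div_iff hj]
    linear_combination this
  have e16 : ∀ i, p4 (p4 z) i = c ^ 5 * z i := by
    intro i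
    have : p4 (p4 z) i = (z i ^ 4) ^ 4 := rfl
    rw [this, e4 i, mul_pow, e4 i]
    ring
  have f4 : dt (p4 b) z = 0 := by
    have : c * dt (p4 b) z = 0 := by
      rw [← h4]
      unfold dt
      rw [show p4 z 0 = c * z 0 from e4 0, show p4 z 1 = c * z 1 from e4 1,
        show p4 z 2 = c * z 2 from e4 2]
      ring
    exact (mul_eq_zero.1 this).resolve_left hc0
  have f16 : dt (p4 (p4 b)) z = 0 := by
    have : c ^ 5 * dt (p4 (p4 b)) z = 0 := by
      rw [← h16]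
      unfold dt
      rw [e16 0, e16 1, e16 2]
      ring
    exact (mul_eq_zero.1 this).resolve_left (pow_ne_zero 5 hc0)
  unfold dt at h f4 f16
  simp only [p4] at f4 f16
  have key : ∀ i, moore b * z i = 0 := by
    apply fin3
    · unfold moore
      linear_combination (b 1 ^ 4 * b 2 ^ 16 - b 2 ^ 4 * b 1 ^ 16) * h -
        (b 1 * b 2 ^ 16 - b 2 * b 1 ^ 16) * f4 + (b 1 * b 2 ^ 4 - b 2 * b 1 ^ 4) * f16
    · unfold moore
      linear_combination -(b 0 ^ 4 * b 2 ^ 16 - b 2 ^ 4 * b 0 ^ 16) * h +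
        (b 0 * b 2 ^ 16 - b 2 * b 0 ^ 16) * f4 - (b 0 * b 2 ^ 4 - b 2 * b 0 ^ 4) * f16
    · unfold moore
      linear_combination (b 0 ^ 4 * b 1 ^ 16 - b 1 ^ 4 * b 0 ^ 16) * h -
        (b 0 * b 1 ^ 16 - b 1 * b 0 ^ 16) * f4 + (b 0 * b 1 ^ 4 - b 1 * b 0 ^ 4) * f16
  exact hj ((mul_eq_zero.1 (key j)).resolve_left hb)

/-- a vector with nonzero Moore determinant has `w b ≠ 0` -/
lemma w_ne_zero_of_moore' (b : Fin 3 → Ω) (hb : moore b ≠ 0) : w b ≠ 0 := by
  intro h
  apply hb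
  have h0 := congrFun h 0
  have h1 := congrFun h 1
  have h2 := congrFun h 2
  simp only [w, cr_zero, cr_one, cr_two, p4, Pi.zero_apply] at h0 h1 h2
  unfold moore
  linear_combination b 0 ^ 16 * h0 + b 1 ^ 16 * h1 + b 2 ^ 16 * h2

lemma moore_ne_zero_entries (b : Fin 3 → Ω) (hb : moore b ≠ 0) (i : Fin 3) : b i ≠ 0 := by
  intro h
  apply hb
  revert h
  revert i
  apply fin3 <;> intro h <;> simp [moore, h]

end

end Pool.Agent.W492.Gon
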