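import Pool.Agent.W492.Gon.LineFF

set_option autoImplicit false
set_option linter.unusedSimpArgs false
set_option linter.style.haveILetI false
set_option linter.unusedSectionVars false

open MvPolynomial Pool.Agent.Helper553.Uni

namespace Pool.Agent.W492.Gon

section
variable {k : Type} [Field k] [CharP k 2] {b : Fin 3 → k}
variable {F : Type} [Field F] [Algebra k F] {ξ : Coord 2 2 → F}

lemma ratios_sub (S : IntermediateField k F) (x V : Fin 3 → F) (hV : V ≠ 0) (hVS : ∀ i, V i ∈ S)
    (h : ∀ i j, x i * V j = x j * V i) : ratios x ⊆ (S : Set F) := by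
  rintro z ⟨i, j, hj, rfl⟩
  have hVj : V j ≠ 0 := by
    intro h0
    apply hV
    funext l
    have h1 := h l j
    rw [h0, mul_zero] at h1
    exact (mul_eq_zero.1 h1.symm).resolve_left hj
  have : x i / x j = V i / V j := by
    rw [div_eq_div_iff hj hVj, h i j]
    ring
  rw [this]
  exact div_mem (hVS i) (hVS j)

/-- a good geometric point of the preimage of a line -/
lemma line_good (hb : moore b ≠ 0) (h2 : (2 : AlgebraicClosure k) = 0) :
    par 1 ![0, ex (AlgebraicClosure k) b 2, ex (AlgebraicClosure k) b 1] ∈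
      (preimage (surf k) (p2 b)).points (AlgebraicClosure k) := by
  have hb' := moore_ex (AlgebraicClosure k) hb
  apply line_mem hb 1 _ one_ne_zero
  · intro h
    exact moore_ne_zero_entries _ hb' 2 (congrFun h 1)
  · simp only [dt, Matrix.cons_val_zero, Matrix.cons_val_one, Matrix.cons_val]
    linear_combination (ex (AlgebraicClosure k) b 1 * ex (AlgebraicClosure k) b 2) * h2

lemma line_x1 (hb : moore b ≠ 0) (h : IsFunctionField (preimage (surf k) (p2 b)) F ξ) :
    ξ (Sum.inl 1) ≠ 0 := by
  refine coord_ne_zero h (Sum.inl 1) _ (line_good hb CharTwo.two_eq_zero) ?_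
  simp only [par, Sum.elim_inl, p2, Matrix.cons_val_one, Matrix.cons_val_zero]
  exact pow_ne_zero 2 (moore_ne_zero_entries _ (moore_ex _ hb) 2)

lemma line_v1 (hb : moore b ≠ 0) (h : IsFunctionField (preimage (surf k) (p2 b)) F ξ) :
    cr (ex F b) (fun i => ξ (Sum.inr i)) 1 ≠ 0 := by
  intro h0
  have h2 : (2 : AlgebraicClosure k) = 0 := CharTwo.two_eq_zero
  have hbi : Bihomogeneous (C (b 2) * X (Sum.inr 0) - C (b 0) * X (Sum.inr 2) :
      MvPolynomial (Coord 2 2) k) := by
    refine ⟨(0, 1), ?_⟩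
    have h1 := (isWeightedHomogeneous_C (bideg 2 2) (b 2)).mul
      (isWeightedHomogeneous_X k (bideg 2 2) (Sum.inr 0))
    have h3 := (isWeightedHomogeneous_C (bideg 2 2) (b 0)).mul
      (isWeightedHomogeneous_X k (bideg 2 2) (Sum.inr 2))
    have h4 : (0 : ℕ × ℕ) + bideg 2 2 (Sum.inr 0) = (0, 1) := by simp [bideg]
    have h5 : (0 : ℕ × ℕ) + bideg 2 2 (Sum.inr 2) = (0, 1) := by simp [bideg]
    rw [h4] at h1
    rw [h5] at h3
    exact Submodule.sub_mem (weightedHomogeneousSubmodule k (bideg 2 2) (0, 1)) h1 h3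
  have h1 := h.generic _ hbi (by
    simp only [cr_one, ex] at h0
    simp only [map_sub, map_mul, aeval_C, aeval_X]
    exact h0) _ (line_good hb h2)
  set β := ex (AlgebraicClosure k) b with hβ
  have hb' : moore β ≠ 0 := moore_ex _ hb
  simp only [map_sub, map_mul, aeval_C, aeval_X, par, Sum.elim_inr, one_mul, w, cr_zero, cr_two,
    p4, Matrix.cons_val_zero, Matrix.cons_val_one, Matrix.cons_val] at h1
  rw [show algebraMap k (AlgebraicClosure k) (b 2) = β 2 from rfl,
    show algebraMap k (AlgebraicClosure k) (b 0) = β 0 from rfl] at h1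
  have h3 : β 2 * (β 2 * β 1 ^ 4 - β 1 * β 2 ^ 4) = 0 := by
    linear_combination h1
  have h4 : β 2 * β 1 ^ 4 - β 1 * β 2 ^ 4 = 0 :=
    (mul_eq_zero.1 h3).resolve_left (moore_ne_zero_entries _ hb' 2)
  have h16 : β 2 ^ 4 * β 1 ^ 16 - β 1 ^ 4 * β 2 ^ 16 = 0 := by
    have h5 : β 2 * β 1 ^ 4 = β 1 * β 2 ^ 4 := sub_eq_zero.1 h4
    have h6 := congrArg (· ^ 4) h5
    simp only [mul_pow] at h6
    linear_combination h6
  have h17 : β 2 * β 1 ^ 16 - β 1 * β 2 ^ 16 = 0 := by
    have h5 : β 1 ^ 3 * (β 2 * β 1 ^ 16 - β 1 * β 2 ^ 16) = 0 := by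
      linear_combination h16 + (β 1 ^ 15) * h4
    exact (mul_eq_zero.1 h5).resolve_left (pow_ne_zero 3 (moore_ne_zero_entries _ hb' 1))
  apply hb'
  unfold moore
  linear_combination -β 0 * h16 + β 0 ^ 4 * h17 - β 0 ^ 16 * h4

lemma w_div {K : Type} [Field K] (z : Fin 3 → K) (c : K) (hc : c ≠ 0) (i : Fin 3) :
    w (fun j => z j / c) i = w z i / c ^ 5 := by
  revert i
  apply fin3
  · simp only [cr_zero, w, p4]
    field_simp
  · simp only [cr_one, w, p4]
    field_simp
  · simp only [cr_two, w, p4]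
    field_simp

lemma dt_div {K : Type} [Field K] (b z : Fin 3 → K) (c : K) (hc : c ≠ 0) :
    b 0 * (z 0 / c) + b 1 * (z 1 / c) + b 2 * (z 2 / c) = dt b z / c := by
  unfold dt
  field_simp

/-- the key structure: a vector `V` with `V 1 = 1` from which the point is recovered -/
lemma line_V (hb : moore b ≠ 0) (h : IsFunctionField (preimage (surf k) (p2 b)) F ξ) :
    ∃ V : Fin 3 → F, V 1 = 1 ∧ dt (ex F b) V = 0 ∧ w V ≠ 0 ∧
      (∀ i j, ξ (Sum.inl i) * (p2 V) j = ξ (Sum.inl j) * (p2 V) i) ∧
      (∀ i j, ξ (Sum.inr i) * (w V) j = ξ (Sum.inr j) * (w V) i) := by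
  have hv1 := line_v1 hb h
  set v := cr (ex F b) (fun i => ξ (Sum.inr i)) with hv
  let V : Fin 3 → F := fun i => v i / v 1
  haveI : CharP F 2 := charP_of_injective_algebraMap (algebraMap k F).injective 2
  let Ω := AlgebraicClosure F
  haveI : CharP Ω 2 := charP_of_injective_algebraMap (algebraMap F Ω).injective 2
  let ι : F →ₐ[k] Ω := IsScalarTower.toAlgHom k F Ω
  have hι : Function.Injective ι := (ι : F →+* Ω).injective
  have hmem : (fun c => ι (ξ c)) ∈ (preimage (surf k) (p2 b)).points Ω := by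
    obtain ⟨⟨i, hi⟩, ⟨j, hj⟩, he⟩ := h.mem
    refine ⟨⟨i, ?_⟩, ⟨j, ?_⟩, ?_⟩
    · exact (map_ne_zero ι).2 hi
    · exact (map_ne_zero ι).2 hj
    · intro f hf
      have := MvPolynomial.comp_aeval_apply ξ ι f
      rw [he f hf, map_zero] at this
      exact this.symm
  obtain ⟨μ, z, hμ, hz0, hbz, hw, hq⟩ := line_point hb _ hmem
  have hx : ∀ i, ι (ξ (Sum.inl i)) = z i ^ 2 := fun i => congrFun hq (Sum.inl i)
  have hy : ∀ i, ι (ξ (Sum.inr i)) = μ * w z i := fun i => congrFun hq (Sum.inr i)
  set β := ex Ω b with hβ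
  have hιb : ∀ i, ι (ex F b i) = β i := fun i => ι.commutes (b i)
  -- `v = μ (b · z ^ 4) z`
  set lam := μ * dt β (p4 z) with hlam
  have hvz : ∀ i, ι (v i) = lam * z i := by
    intro i
    have h1 : ι (v i) = cr (fun j => ι (ex F b j)) (fun j => ι (ξ (Sum.inr j))) i := by
      rw [hv]
      exact cr_map (ι : F →+* Ω) _ _ i
    rw [h1]
    simp only [hιb, hy]
    unfold dt at hbz
    rw [hlam]
    revert i
    apply fin3
    · intro _
      simp only [cr_zero, w, cr_one, cr_two, dt, p4]
      linear_combination -μ * z 0 ^ 4 * hbz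
    · intro _
      simp only [cr_zero, w, cr_one, cr_two, dt, p4]
      linear_combination -μ * z 1 ^ 4 * hbz
    · intro _
      simp only [cr_zero, w, cr_one, cr_two, dt, p4]
      linear_combination -μ * z 2 ^ 4 * hbz
  have hv1' : ι (v 1) ≠ 0 := (map_ne_zero ι).2 hv1
  have hlam0 : lam ≠ 0 := by
    intro h0
    apply hv1'
    rw [hvz, h0, zero_mul]
  have hz1 : z 1 ≠ 0 := by
    intro h0
    apply hv1'
    rw [hvz, h0, mul_zero]
  have hV : ∀ i, ι (V i) = z i / z 1 := by
    intro i
    show ι (v i / v 1) = _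
    rw [map_div₀, hvz, hvz, mul_div_mul_left _ _ hlam0]
  have hwV : ∀ i, ι (w V i) = w z i / z 1 ^ 5 := by
    intro i
    have h1 : ι (w V i) = cr (fun j => ι (V j)) (fun j => ι (p4 V j)) i :=
      cr_map (ι : F →+* Ω) _ _ i
    rw [h1]
    simp only [p4, map_pow, hV]
    exact w_div z (z 1) hz1 i
  refine ⟨V, div_self hv1, ?_, ?_, ?_, ?_⟩
  · apply hι
    rw [map_zero]
    unfold dt
    rw [map_add, map_add, map_mul, map_mul, map_mul, hιb, hιb, hιb, hV, hV, hV,
      dt_div β z (z 1) hz1, hbz, zero_div]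
  · intro h0
    apply hw
    funext i
    have h1 := hwV i
    rw [h0, Pi.zero_apply, map_zero, eq_comm, div_eq_zero_iff] at h1
    exact h1.resolve_right (pow_ne_zero 5 hz1)
  · intro i j
    apply hι
    rw [map_mul, map_mul, hx, hx]
    simp only [p2, map_pow, hV]
    ring
  · intro i j
    apply hι
    rw [map_mul, map_mul, hy, hy, hwV, hwV]
    ring

/-- the function field of the preimage of a general line is purely transcendental -/
theorem line_min (hb : moore b ≠ 0) (h : IsFunctionField (preimage (surf k) (p2 b)) F ξ) :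
    IsMinDegree k F 1 1 := by
  obtain ⟨V, hV1, hbV, hwV, hx, hy⟩ := line_V hb h
  haveI : CharP F 2 := charP_of_injective_algebraMap (algebraMap k F).injective 2
  have hx1 := line_x1 hb h
  set S := IntermediateField.adjoin k {V 2} with hS
  have n2 : V 2 ∈ S := IntermediateField.subset_adjoin _ _ rfl
  have hb0 := moore_ne_zero_entries _ (moore_ex F hb) 0
  have hVS : ∀ i, V i ∈ S := by
    have hbS : ∀ i, ex F b i ∈ S := fun i => S.algebraMap_mem (b i)
    apply fin3
    · have : V 0 = -(ex F b 1 + ex F b 2 * V 2) / ex F b 0 := by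
        rw [eq_div_iff hb0]
        unfold dt at hbV
        rw [hV1] at hbV
        linear_combination hbV
      rw [this]
      exact div_mem (neg_mem (add_mem (hbS 1) (mul_mem (hbS 2) n2))) (hbS 0)
    · rw [hV1]; exact one_mem _
    · exact n2
  have hp2 : ∀ i, p2 V i ∈ S := fun i => pow_mem (hVS i) 2
  have hwS : ∀ i, w V i ∈ S := by
    have h4 : ∀ i, p4 V i ∈ S := fun i => pow_mem (hVS i) 4
    apply fin3
    · exact sub_mem (mul_mem (hVS 1) (h4 2)) (mul_mem (hVS 2) (h4 1))
    · exact sub_mem (mul_mem (hVS 2) (h4 0)) (mul_mem (hVS 0) (h4 2))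
    · exact sub_mem (mul_mem (hVS 0) (h4 1)) (mul_mem (hVS 1) (h4 0))
  have htop : S = ⊤ := by
    rw [eq_top_iff, ← h.gen, IntermediateField.adjoin_le_iff, Set.union_subset_iff]
    constructor
    · apply ratios_sub S _ (p2 V) _ hp2 hx
      intro h0
      have := congrFun h0 1
      simp [p2, hV1] at this
    · exact ratios_sub S _ (w V) hwV hwS hy
  have htr : Transcendental k (V 2) := by
    intro halg
    have h1 : IsAlgebraic k (ξ (Sum.inl 2) / ξ (Sum.inl 1)) := by
      have : ξ (Sum.inl 2) / ξ (Sum.inl 1) = V 2 ^ 2 := by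
        rw [div_eq_iff hx1]
        have := hx 2 1
        simp only [p2, hV1] at this
        linear_combination this
      rw [this]
      exact halg.pow 2
    obtain ⟨p, hp0, hp⟩ := h1
    have h2 : ∀ q ∈ (preimage (surf k) (p2 b)).points (AlgebraicClosure k),
        q (Sum.inl 1) ≠ 0 → Polynomial.aeval (q (Sum.inl 2) / q (Sum.inl 1)) p = 0 := by
      intro q hq hq1
      have h3 := relation_transfer h 1 hx1 (Polynomial.aeval (X 2) p) (by
        rw [← Polynomial.aeval_algHom_apply, aeval_X]
        exact hp) q hq hq1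
      rw [← Polynomial.aeval_algHom_apply, aeval_X] at h3
      exact h3
    apply hp0
    have h4 : ∀ r : AlgebraicClosure k, Polynomial.aeval r p = 0 := by
      intro r
      obtain ⟨s, hs⟩ := IsAlgClosed.exists_pow_nat_eq r (n := 2) (by norm_num)
      set β := ex (AlgebraicClosure k) b with hβ
      have hβ0 : β 0 ≠ 0 := moore_ne_zero_entries _ (moore_ex _ hb) 0
      have h5 := h2 (par 1 ![-(β 1 + β 2 * s) / β 0, 1, s]) (line_mem hb 1 _ one_ne_zero
        (fun h0 => by have := congrFun h0 1; simp at this) (by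
          simp only [dt, Matrix.cons_val_zero, Matrix.cons_val_one, Matrix.cons_val]
          field_simp
          ring)) (by simp [par, p2])
      simp only [par, Sum.elim_inl, p2, Matrix.cons_val_one, Matrix.cons_val, one_pow, div_one,
        hs] at h5
      exact h5
    haveI : Infinite (AlgebraicClosure k) := IsAlgClosed.instInfinite
    have h6 : p.map (algebraMap k (AlgebraicClosure k)) = 0 := by
      apply Polynomial.funext
      intro r
      rw [Polynomial.eval_map_algebraMap, h4 r, Polynomial.eval_zero]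
    exact (Polynomial.map_eq_zero _).1 h6
  have hr : Set.range (fun _ : Fin 1 => V 2) = {V 2} := Set.range_const
  refine ⟨⟨fun _ => V 2, ?_, ?_⟩, ?_⟩
  · rw [algebraicIndependent_unique_type_iff]
    exact htr
  · rw [hr, ← hS, htop]
    rw [IntermediateField.rank_top]
    simp
  · rintro e ⟨t, ht, he⟩
    have h0 : e ≠ 0 := by
      rintro rfl
      have : Module.rank (IntermediateField.adjoin k (Set.range t)) F ≠ 0 := by
        rw [Ne, rank_zero_iff]
        exact not_subsingleton F
      exact this (by simpa using he)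
    omega

end

end Pool.Agent.W492.Gon
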