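import Pool.Agent.W492.Gon.Line

set_option autoImplicit false
set_option linter.unusedSimpArgs false
set_option linter.style.haveILetI false
set_option linter.unusedSectionVars false

open MvPolynomial Pool.Agent.Helper553.Uni

namespace Pool.Agent.W492.Gon

section
variable {k : Type} [Field k] [CharP k 2] {b : Fin 3 → k}

/-- `b` with values in an extension field -/
def ex {k : Type} [Field k] (Ω : Type) [Field Ω] [Algebra k Ω] (b : Fin 3 → k) : Fin 3 → Ω :=
  fun i => algebraMap k Ω (b i)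

lemma moore_ex (Ω : Type) [Field Ω] [Algebra k Ω] (hb : moore b ≠ 0) : moore (ex Ω b) ≠ 0 := by
  have h := moore_map (algebraMap k Ω) b
  unfold ex
  rw [← h]
  exact (map_ne_zero _).2 hb

lemma line_mem {Ω : Type} [Field Ω] [Algebra k Ω] [CharP Ω 2] (hb : moore b ≠ 0) (μ : Ω)
    (z : Fin 3 → Ω) (hμ : μ ≠ 0) (hz : z ≠ 0) (h : dt (ex Ω b) z = 0) :
    par μ z ∈ (preimage (surf k) (p2 b)).points Ω := by
  rw [mem_preimage]
  refine ⟨par_mem μ z hμ (w_ne_zero_of_moore _ z (moore_ex Ω hb) hz h), ?_⟩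
  have h1 : (dt (ex Ω b) z) ^ 2 = 0 := by rw [h]; simp
  unfold dt at h1
  rw [sq_add3] at h1
  simp only [par, Sum.elim_inl, p2, map_pow]
  unfold ex at h1
  linear_combination h1

lemma line_point {Ω : Type} [Field Ω] [Algebra k Ω] [CharP Ω 2] [IsAlgClosed Ω]
    (hb : moore b ≠ 0) (q : Coord 2 2 → Ω) (hq : q ∈ (preimage (surf k) (p2 b)).points Ω) :
    ∃ (μ : Ω) (z : Fin 3 → Ω), μ ≠ 0 ∧ z ≠ 0 ∧ dt (ex Ω b) z = 0 ∧ w z ≠ 0 ∧ q = par μ z := by
  rw [mem_preimage, mem_surf] at hq
  obtain ⟨⟨⟨i, hi⟩, ⟨j, hj⟩, hs⟩, hl⟩ := hq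
  obtain ⟨z, hz⟩ := exists_root (fun i => q (Sum.inl i))
  rw [hz] at hs
  obtain ⟨h1, h2⟩ := (onSurf_iff _ _).1 hs
  have hz0 : z ≠ 0 := by
    rintro rfl
    apply hi
    have := congrFun hz i
    simpa [p2] using this
  have hbz : dt (ex Ω b) z = 0 := by
    have h3 : (dt (ex Ω b) z) ^ 2 = 0 := by
      unfold dt
      rw [sq_add3]
      have e0 : q (Sum.inl 0) = z 0 ^ 2 := congrFun hz 0
      have e1 : q (Sum.inl 1) = z 1 ^ 2 := congrFun hz 1
      have e2 : q (Sum.inl 2) = z 2 ^ 2 := congrFun hz 2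
      rw [e0, e1, e2] at hl
      simp only [p2, map_pow] at hl
      unfold ex
      linear_combination hl
    exact pow_eq_zero_iff (two_ne_zero) |>.1 h3
  have hw := w_ne_zero_of_moore _ z (moore_ex Ω hb) hz0 hbz
  obtain ⟨μ, hμ⟩ := exists_mul_of_orth z (p4 z) _ h1 h2 hw
  refine ⟨μ, z, ?_, hz0, hbz, hw, ?_⟩
  · rintro rfl
    apply hj
    rw [hμ j, zero_mul]
  · funext c
    rcases c with i | i
    · exact congrFun hz i
    · exact hμ i

lemma ne_zero_of_moore (hb : moore b ≠ 0) : b ≠ 0 := by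
  rintro rfl
  apply hb
  simp [moore]

/-- the preimage of a general line has a function field -/
theorem line_ff (hb : moore b ≠ 0) :
    ∃ (L : Type) (_ : Field L) (_ : Algebra k L) (ξ : Coord 2 2 → L),
      IsFunctionField (preimage (surf k) (p2 b)) L ξ := by
  let S := MvPolynomial (Fin 3) k
  let F := FractionRing S
  let Z : Fin 3 → S := cr (fun i => X i) (fun i => C (b i))
  let φ : S →ₐ[k] F := IsScalarTower.toAlgHom k S F
  have hφ : Function.Injective φ := IsFractionRing.injective S F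
  haveI : CharP F 2 := charP_of_injective_algebraMap (algebraMap k F).injective 2
  have hb0 : b 0 ≠ 0 := by
    intro h
    apply hb
    simp [moore, h]
  have hZ : Z ≠ 0 := by
    intro h0
    have h1 := congrArg (eval ![0, 1, 0]) (congrFun h0 2)
    simp [Z] at h1
    exact hb0 h1
  have hφZ : (fun i => φ (Z i)) ≠ 0 := by
    intro h0
    apply hZ
    funext i
    apply hφ
    rw [Pi.zero_apply, map_zero]
    exact congrFun h0 i
  have hdt : dt (ex F b) (fun i => φ (Z i)) = 0 := by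
    have h1 : dt (fun i => C (b i)) Z = 0 := dt_cr_right _ _
    have h2 := congrArg φ h1
    unfold dt at h2 ⊢
    rw [map_zero, map_add, map_add, map_mul, map_mul, map_mul] at h2
    have h3 : ∀ i, φ (C (b i)) = ex F b i := fun i => by
      rw [← algebraMap_eq]
      exact φ.commutes (b i)
    rw [h3, h3, h3] at h2
    exact h2
  refine exists_functionField (K := F) (par 1 (fun i => φ (Z i)))
    (line_mem hb 1 _ one_ne_zero hφZ hdt) ?_
  intro f hf h
  refine generic_par Z _ ?_ f hf (aeval_par_inj φ hφ Z f h)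
  intro q hq
  obtain ⟨μ, z, hμ, hz0, hbz, hw, rfl⟩ := line_point hb q hq
  refine ⟨μ, hμ, z, hw, rfl, ?_⟩
  obtain ⟨u, hu⟩ := exists_cr_of_orth (ex (AlgebraicClosure k) b) z hbz
    (ne_zero_of_moore (moore_ex _ hb))
  refine ⟨aeval u, fun i => ?_⟩
  rw [hu i]
  have h4 := cr_map (aeval u : S →ₐ[k] AlgebraicClosure k).toRingHom (fun i => X i)
    (fun i => C (b i)) i
  have h5 : ∀ i, (aeval u : S →ₐ[k] AlgebraicClosure k).toRingHom (X i) = u i := fun i => by
    simp
  have h6 : ∀ i, (aeval u : S →ₐ[k] AlgebraicClosure k).toRingHom (C (b i)) =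
      ex (AlgebraicClosure k) b i := fun i => by
    simp [ex]
  simp only [h5, h6] at h4
  exact h4

end

end Pool.Agent.W492.Gon
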