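import Pool.Agent.W492.Gon.LineDeg
set_option autoImplicit false
open MvPolynomial Pool.Agent.Helper553.Uni
namespace Pool.Agent.W492.Gon

lemma exists_pow16_ne {Ω : Type} [Field Ω] [Infinite Ω] : ∃ t : Ω, t ^ 16 ≠ t := by
  by_contra hc
  push Not at hc
  have h : (Polynomial.X ^ 16 - Polynomial.X : Polynomial Ω) = 0 := by
    apply Polynomial.eq_zero_of_infinite_isRoot
    apply Set.Infinite.mono (s := Set.univ) _ Set.infinite_univ
    intro t _
    show Polynomial.eval t _ = 0
    simp [hc t]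
  have h1 := congrArg (fun p => Polynomial.coeff p 16) h
  simp [Polynomial.coeff_X] at h1

/-- the Moore determinant as a polynomial -/
noncomputable def mooreP (k : Type) [Field k] : MvPolynomial (Fin 3) k := moore (fun i => X i)

lemma eval_mooreP {k : Type} [Field k] (a : Fin 3 → k) : eval a (mooreP k) = moore a := by
  unfold mooreP
  rw [moore_map]
  simp

lemma mooreP_ne_zero {k : Type} [Field k] [Infinite k] [CharP k 2] : mooreP k ≠ 0 := by
  intro h0
  obtain ⟨t, ht⟩ := exists_pow16_ne (Ω := k)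
  have h2 : (2 : k) = 0 := CharTwo.two_eq_zero
  have h1 := eval_mooreP ![1, t, t ^ 2]
  rw [h0, map_zero] at h1
  have ht4 : t ^ 4 - t ≠ 0 := by
    intro h
    apply ht
    have h4 : t ^ 4 = t := sub_eq_zero.1 h
    calc t ^ 16 = (t ^ 4) ^ 4 := by ring
      _ = t := by rw [h4, h4]
  have h5 : (t ^ 4 - t) * ((t ^ 16 - t) * (t ^ 16 - t ^ 4)) = 0 := by
    rw [h1]
    simp only [moore, Matrix.cons_val_zero, Matrix.cons_val_one, Matrix.cons_val]
    ring
  have h6 : (t ^ 4 - t) ^ 4 = t ^ 16 - t ^ 4 := by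
    linear_combination (-2 * t ^ 13 + 3 * t ^ 10 - 2 * t ^ 7 + t ^ 4) * h2
  rw [← h6] at h5
  exact mul_ne_zero ht4 (mul_ne_zero (sub_ne_zero.2 ht) (pow_ne_zero 4 ht4)) h5

lemma mooreP_homogeneous {k : Type} [Field k] : (mooreP k).IsHomogeneous 21 := by
  have key : ∀ i j l : Fin 3, ∀ a b : ℕ, a + b = 20 →
      (X i * (X j ^ a * X l ^ b) : MvPolynomial (Fin 3) k).IsHomogeneous 21 := by
    intro i j l a b hab
    have h1 := (isHomogeneous_X k i).mul (((isHomogeneous_X k j).pow a).mul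
      ((isHomogeneous_X k l).pow b))
    have h2 : 1 + (1 * a + 1 * b) = 21 := by omega
    rw [h2] at h1
    exact h1
  unfold mooreP moore
  rw [mul_sub, mul_sub, mul_sub]
  exact (((key _ _ _ _ _ rfl).sub (key _ _ _ _ _ rfl)).sub
    ((key _ _ _ _ _ rfl).sub (key _ _ _ _ _ rfl))).add
    ((key _ _ _ _ _ rfl).sub (key _ _ _ _ _ rfl))

end Pool.Agent.W492.Gon
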