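import Pool.Agent.W492.Gon.Vec
import Pool.Agent.W492.Gon.Defs

set_option autoImplicit false
set_option linter.unusedSimpArgs false
set_option linter.style.haveILetI false
set_option linter.unusedSectionVars false

open MvPolynomial

namespace Pool.Agent.W492.Gon

section der0
variable {P K : Type*} [CommRing P] [Field K]

/-- the ring homomorphism `p ↦ φ p + φ (D p) ε` -/
def dualHom (φ : P →+* K) (D : P → P) (hadd : ∀ a b, D (a + b) = D a + D b)
    (hmul : ∀ a b, D (a * b) = a * D b + b * D a) (h0 : D 0 = 0) (h1 : D 1 = 0) :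
    P →+* DualNumber K where
  toFun := fun p => TrivSqZeroExt.inl (φ p) + TrivSqZeroExt.inr (φ (D p))
  map_one' := by simp [h1]
  map_zero' := by simp [h0]
  map_add' := fun a b => by
    ext
    · simp
    · simp [hadd]
  map_mul' := fun a b => by
    ext
    · simp
    · simp [hmul, mul_comm]

lemma dualHom_fst (φ : P →+* K) (D : P → P) (hadd : ∀ a b, D (a + b) = D a + D b)
    (hmul : ∀ a b, D (a * b) = a * D b + b * D a) (h0 : D 0 = 0) (h1 : D 1 = 0) (p : P) :
    (dualHom φ D hadd hmul h0 h1 p).fst = φ p := by simp [dualHom]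

lemma dualHom_snd (φ : P →+* K) (D : P → P) (hadd : ∀ a b, D (a + b) = D a + D b)
    (hmul : ∀ a b, D (a * b) = a * D b + b * D a) (h0 : D 0 = 0) (h1 : D 1 = 0) (p : P) :
    (dualHom φ D hadd hmul h0 h1 p).snd = φ (D p) := by simp [dualHom]

end der0

section der
variable {P K : Type*} [CommRing P] [IsDomain P] [Field K] [Algebra P K] [IsFractionRing P K]

/-- a derivation of a domain extends to its field of fractions -/
theorem exists_ext (D : P → P) (hadd : ∀ a b, D (a + b) = D a + D b)
    (hmul : ∀ a b, D (a * b) = a * D b + b * D a) :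
    ∃ E : K → K, (∀ a b, E (a + b) = E a + E b) ∧ (∀ a b, E (a * b) = a * E b + b * E a) ∧
      ∀ p, E (algebraMap P K p) = algebraMap P K (D p) := by
  have h0 : D 0 = 0 := by have := hadd 0 0; simpa using this
  have h1 : D 1 = 0 := by have := hmul 1 1; simpa using this
  let t : P →+* DualNumber K := dualHom (algebraMap P K) D hadd hmul h0 h1
  have ht : ∀ y : nonZeroDivisors P, IsUnit (t y) := by
    intro y
    rw [TrivSqZeroExt.isUnit_iff_isUnit_fst]
    have h2 : (t y).fst = algebraMap P K y := dualHom_fst _ _ _ _ _ _ _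
    rw [h2, isUnit_iff_ne_zero]
    exact IsFractionRing.to_map_ne_zero_of_mem_nonZeroDivisors y.2
  let θ : K →+* DualNumber K := IsLocalization.lift (M := nonZeroDivisors P) ht
  have hθ : ∀ p, θ (algebraMap P K p) = t p := fun p => IsLocalization.lift_eq ht p
  have hfst : ∀ x, (θ x).fst = x := by
    intro x
    obtain ⟨a, b, hb, rfl⟩ := IsFractionRing.div_surjective (A := P) x
    have hb' : algebraMap P K b ≠ 0 := IsFractionRing.to_map_ne_zero_of_mem_nonZeroDivisors hb
    have h3 : (θ (algebraMap P K a / algebraMap P K b)) * θ (algebraMap P K b) =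
        θ (algebraMap P K a) := by
      rw [← map_mul, div_mul_cancel₀ _ hb']
    have h4 := congrArg TrivSqZeroExt.fst h3
    rw [hθ, hθ, TrivSqZeroExt.fst_mul, dualHom_fst, dualHom_fst] at h4
    rw [eq_div_iff hb']
    exact h4
  refine ⟨fun x => (θ x).snd, ?_, ?_, ?_⟩
  · intro a b
    simp
  · intro a b
    show (θ (a * b)).snd = _
    rw [map_mul, TrivSqZeroExt.snd_mul, hfst, hfst]
    simp [mul_comm]
  · intro p
    show (θ (algebraMap P K p)).snd = _
    rw [hθ, dualHom_snd]

end der

section prim
variable {P : Type*} [CommRing P] [IsDomain P]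

/-- a vector without common non-unit divisor -/
def Prim (v : Fin 3 → P) : Prop := ∀ π : P, Prime π → ∃ i, ¬ π ∣ v i

lemma Prim.sq {v : Fin 3 → P} (h : Prim v) : Prim (p2 v) := by
  intro π hπ
  obtain ⟨i, hi⟩ := h π hπ
  exact ⟨i, fun hd => hi (hπ.dvd_of_dvd_pow hd)⟩

variable [UniqueFactorizationMonoid P]

lemma dvd_of_prim (v : Fin 3 → P) (hv : Prim v) (a : P) (u : P) (ha : a ≠ 0)
    (h : ∀ i, a ∣ v i * u) : a ∣ u := by
  revert h u
  refine UniqueFactorizationMonoid.induction_on_prime (P := fun a => a ≠ 0 →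
    ∀ u, (∀ i, a ∣ v i * u) → a ∣ u) a ?_ ?_ ?_ ha
  · intro h
    exact absurd rfl h
  · intro x hx _ u _
    exact hx.dvd
  · intro b π hb hπ ih _ u hu
    obtain ⟨i, hi⟩ := hv π hπ
    have h1 : π ∣ v i * u := (dvd_mul_right π b).trans (hu i)
    obtain ⟨u', rfl⟩ := (hπ.dvd_or_dvd h1).resolve_left hi
    apply mul_dvd_mul_left
    apply ih hb
    intro j
    have h2 := hu j
    have h3 : v j * (π * u') = π * (v j * u') := by ring
    rw [h3] at h2
    exact (mul_dvd_mul_iff_left hπ.ne_zero).1 h2

/-- a vector proportional to a primitive one is a multiple of it -/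
lemma exists_mul_of_prim (v u : Fin 3 → P) (hv : Prim v) (hv0 : v ≠ 0)
    (h : ∀ i j, v i * u j = v j * u i) : ∃ c : P, ∀ i, u i = c * v i := by
  obtain ⟨i, hi⟩ : ∃ i, v i ≠ 0 := by
    by_contra hc
    push Not at hc
    exact hv0 (funext hc)
  have h1 : v i ∣ u i := dvd_of_prim v hv (v i) (u i) hi fun j => ⟨u j, (h j i).trans rfl⟩
  obtain ⟨c, hc⟩ := h1
  refine ⟨c, fun j => ?_⟩
  apply mul_left_cancel₀ hi
  rw [h i j, hc]
  ring

/-- a nonzero vector over the field of fractions is a multiple of a primitive vector -/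
lemma exists_prim {K : Type*} [Field K] [Algebra P K] [IsFractionRing P K] (x : Fin 3 → K)
    (hx : x ≠ 0) : ∃ (ρ : K) (A : Fin 3 → P), ρ ≠ 0 ∧ Prim A ∧ ∀ i, x i = ρ * algebraMap P K (A i) := by
  classical
  obtain ⟨b, hb⟩ := IsLocalization.exist_integer_multiples_of_finite (nonZeroDivisors P) x
  choose y hy using hb
  have hb0 : algebraMap P K b ≠ 0 := IsFractionRing.to_map_ne_zero_of_mem_nonZeroDivisors b.2
  have hy' : ∀ i, x i = (algebraMap P K b)⁻¹ * algebraMap P K (y i) := by
    intro i
    rw [hy i, Algebra.smul_def, inv_mul_cancel_left₀ hb0]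
  have hy0 : y ≠ 0 := by
    rintro rfl
    apply hx
    funext i
    rw [hy' i]
    simp
  obtain ⟨i₀, hi₀⟩ : ∃ i, y i ≠ 0 := by
    by_contra hc
    push Not at hc
    exact hy0 (funext hc)
  -- divide by common prime factors: induct on the number of prime factors of `y i₀`
  have key : ∀ (N : ℕ) (y : Fin 3 → P), y i₀ ≠ 0 →
      (UniqueFactorizationMonoid.factors (y i₀)).card = N →
      ∃ (g : P) (A : Fin 3 → P), g ≠ 0 ∧ Prim A ∧ ∀ i, y i = g * A i := by
    intro N
    induction N with
    | zero =>
      intro y hy0 hN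
      refine ⟨1, y, one_ne_zero, ?_, fun i => (one_mul _).symm⟩
      intro π hπ
      refine ⟨i₀, fun hd => ?_⟩
      obtain ⟨q, hq, -⟩ := UniqueFactorizationMonoid.exists_mem_factors_of_dvd hy0
        hπ.irreducible hd
      rw [Multiset.card_eq_zero] at hN
      rw [hN] at hq
      simp at hq
    | succ N ih =>
      intro y hy0 hN
      by_cases hp : Prim y
      · exact ⟨1, y, one_ne_zero, hp, fun i => (one_mul _).symm⟩
      · unfold Prim at hp
        push Not at hp
        obtain ⟨π, hπ, hd⟩ := hp
        choose z hz using hd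
        have hz0 : z i₀ ≠ 0 := by
          intro h
          apply hy0
          rw [hz, h, mul_zero]
        have hcard : (UniqueFactorizationMonoid.factors (z i₀)).card = N := by
          have h1 := UniqueFactorizationMonoid.factors_mul hπ.ne_zero hz0
          rw [← hz] at h1
          have h2 := Multiset.card_eq_card_of_rel h1
          have h3 : (UniqueFactorizationMonoid.factors π).card = 1 :=
            UniqueFactorizationMonoid.card_factors_of_irreducible hπ.irreducible
          rw [hN, Multiset.card_add, h3] at h2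
          omega
        obtain ⟨g, A, hg, hA, hgA⟩ := ih z hz0 hcard
        refine ⟨π * g, A, mul_ne_zero hπ.ne_zero hg, hA, fun i => ?_⟩
        rw [hz, hgA]
        ring
  obtain ⟨g, A, hg, hA, hgA⟩ := key _ y hi₀ rfl
  refine ⟨(algebraMap P K b)⁻¹ * algebraMap P K g, A, ?_, hA, fun i => ?_⟩
  · refine mul_ne_zero (inv_ne_zero hb0) ?_
    rw [Ne, IsFractionRing.to_map_eq_zero_iff]
    exact hg
  · rw [hy' i, hgA i, map_mul]
    ring

end prim

end Pool.Agent.W492.Gon
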