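import Pool.Agent.W492.Gon.SurfFF

set_option autoImplicit false
set_option linter.unusedSimpArgs false
set_option linter.style.haveILetI false
set_option linter.unusedSectionVars false

open MvPolynomial Pool.Agent.Helper553.Uni

namespace Pool.Agent.W492.Gon

section
variable {k : Type} [Field k] [CharP k 2]
variable {K : Type} [Field K] [Algebra k K] {ξ : Coord 2 2 → K}

lemma surf_ne_top (h : IsFunctionField (surf k) K ξ) (t : Fin 2 → K)
    (ht : AlgebraicIndependent k t) : IntermediateField.adjoin k (Set.range t) ≠ ⊤ := by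
  intro htop
  obtain ⟨-, -, hs⟩ := (mem_surf ξ).1 h.mem
  exact nonrat t ht htop (fun i => ξ (Sum.inl i)) (fun i => ξ (Sum.inr i))
    (fun h0 => surf_coord_ne_zero h (Sum.inl 0) (congrFun h0 0))
    (fun h0 => surf_coord_ne_zero h (Sum.inr 0) (congrFun h0 0)) hs h.gen

lemma surf_rank (h : IsFunctionField (surf k) K ξ) :
    Module.rank (IntermediateField.adjoin k (Set.range (firstProj ξ))) K = 2 := by
  haveI : CharP K 2 := charP_of_injective_algebraMap (algebraMap k K).injective 2
  obtain ⟨v, hv, hgen⟩ := surf_rel h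
  set K₀ := IntermediateField.adjoin k (Set.range (firstProj ξ)) with hK₀
  have hne : K₀ ≠ ⊤ := surf_ne_top h _ (surf_algInd h)
  have hvn : v ∉ K₀ := fun hv => hne (hgen K₀ le_rfl hv)
  have htop : IntermediateField.adjoin K₀ {v} = ⊤ := by
    have h1 : (IntermediateField.adjoin K₀ {v}).restrictScalars k = ⊤ := by
      apply hgen
      · intro z hz
        exact (IntermediateField.adjoin K₀ {v}).algebraMap_mem ⟨z, hz⟩
      · exact IntermediateField.subset_adjoin K₀ {v} rfl
    rw [eq_top_iff]
    intro z _
    have : z ∈ (IntermediateField.adjoin K₀ {v}).restrictScalars k := by rw [h1]; trivial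
    exact this
  let c : K₀ := ⟨v ^ 2, hv⟩
  have hroot : Polynomial.aeval v (Polynomial.X ^ 2 - Polynomial.C c) = 0 := by
    simp only [map_sub, map_pow, Polynomial.aeval_X, Polynomial.aeval_C]
    exact sub_self _
  have hmonic : (Polynomial.X ^ 2 - Polynomial.C c).Monic :=
    Polynomial.monic_X_pow_sub_C c (by norm_num)
  have hint : IsIntegral K₀ v := ⟨_, hmonic, hroot⟩
  have hdeg : (minpoly K₀ v).natDegree = 2 := by
    have h1 : (minpoly K₀ v).natDegree ≤ 2 := by
      have h3 := Polynomial.natDegree_le_of_dvd (minpoly.dvd K₀ v hroot) hmonic.ne_zero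
      rwa [Polynomial.natDegree_X_pow_sub_C] at h3
    have h2 : 0 < (minpoly K₀ v).natDegree := minpoly.natDegree_pos hint
    have h3 : (minpoly K₀ v).natDegree ≠ 1 := by
      rw [Ne, minpoly.natDegree_eq_one_iff]
      rintro ⟨⟨z, hz⟩, rfl⟩
      exact hvn hz
    omega
  have hfr := IntermediateField.adjoin.finrank hint
  rw [hdeg, htop] at hfr
  have hfr2 : Module.finrank K₀ K = 2 := by
    rw [← hfr]
    exact (IntermediateField.finrank_top' (F := K₀) (E := K)).symm
  haveI : Module.Finite K₀ K := Module.finite_of_finrank_pos (by omega)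
  rw [← Module.finrank_eq_rank, hfr2]
  rfl

theorem surf_min (h : IsFunctionField (surf k) K ξ) : IsMinDegree k K 2 2 := by
  refine ⟨⟨firstProj ξ, surf_algInd h, surf_rank h⟩, ?_⟩
  rintro e ⟨t, ht, he⟩
  have h0 : e ≠ 0 := by
    rintro rfl
    have : Module.rank (IntermediateField.adjoin k (Set.range t)) K ≠ 0 := by
      rw [Ne, rank_zero_iff]
      exact not_subsingleton K
    exact this (by simpa using he)
  have h1 : e ≠ 1 := by
    rintro rfl
    apply surf_ne_top h t ht
    rw [← IntermediateField.finrank_eq_one_iff_eq_top, Module.finrank, he]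
    simp
  omega

end

end Pool.Agent.W492.Gon
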