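import Pool.Agent.W492.Gon.Gen

set_option autoImplicit false
set_option linter.unusedSimpArgs false
set_option linter.style.haveILetI false
set_option linter.unusedSectionVars false

open MvPolynomial Pool.Agent.Helper553.Uni

namespace Pool.Agent.W492.Gon

section
variable {k : Type} [Field k] [CharP k 2]

instance instCharPAC : CharP (AlgebraicClosure k) 2 :=
  charP_of_injective_algebraMap (algebraMap k (AlgebraicClosure k)).injective 2

/-- generic criterion -/
lemma generic_par {S : Type} [CommRing S] [IsDomain S] [Algebra k S] (Z : Fin 3 → S)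
    (V : BiProj k 2 2) (hV : ∀ q ∈ V.points (AlgebraicClosure k), ∃ μ : AlgebraicClosure k,
      μ ≠ 0 ∧ ∃ z : Fin 3 → AlgebraicClosure k, w z ≠ 0 ∧ q = par μ z ∧
        ∃ φ : S →ₐ[k] AlgebraicClosure k, ∀ i, φ (Z i) = z i)
    (f : MvPolynomial (Coord 2 2) k) (hf : Bihomogeneous f) (h : aeval (par 1 Z) f = 0) :
    ∀ q ∈ V.points (AlgebraicClosure k), aeval q f = 0 := by
  intro q hq
  obtain ⟨μ, hμ, z, -, rfl, φ, hφ⟩ := hV q hq
  rw [aeval_par_smul f hf μ hμ]
  have h1 := aeval_par_comp φ 1 Z f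
  rw [h, map_zero, map_one] at h1
  simp only [hφ] at h1
  exact h1.symm

/-- `par` and injective algebra maps -/
lemma aeval_par_inj {S L : Type} [CommRing S] [CommRing L] [Algebra k S] [Algebra k L]
    (φ : S →ₐ[k] L) (hφ : Function.Injective φ) (Z : Fin 3 → S) (f : MvPolynomial (Coord 2 2) k)
    (h : aeval (par 1 (fun i => φ (Z i))) f = 0) : aeval (par 1 Z) f = 0 := by
  apply hφ
  rw [aeval_par_comp, map_one, h, map_zero]

/-- the surface has a function field -/
theorem surf_ff : ∃ (L : Type) (_ : Field L) (_ : Algebra k L) (ξ : Coord 2 2 → L),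
    IsFunctionField (surf k) L ξ := by
  let S := MvPolynomial (Fin 3) k
  let F := FractionRing S
  let Z : Fin 3 → S := fun i => X i
  let φ : S →ₐ[k] F := IsScalarTower.toAlgHom k S F
  have hφ : Function.Injective φ := IsFractionRing.injective S F
  haveI : Infinite (AlgebraicClosure k) := IsAlgClosed.instInfinite
  haveI : CharP F 2 := charP_of_injective_algebraMap (algebraMap k F).injective 2
  have hw : w (fun i => φ (Z i)) ≠ 0 := by
    intro h0
    obtain ⟨z, hz⟩ := exists_w_ne (Ω := AlgebraicClosure k)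
    apply hz
    have h1 := congrFun h0 0
    have h2 : φ (w Z 0) = 0 := by
      unfold w
      rw [show φ (cr Z (p4 Z) 0) = φ.toRingHom (cr Z (p4 Z) 0) from rfl, cr_map]
      simp only [p4, map_pow]
      exact h1
    have h3 : w Z 0 = 0 := hφ (by rw [h2, map_zero])
    have h4 := congrArg (aeval z : S →ₐ[k] AlgebraicClosure k).toRingHom h3
    unfold w at h4
    rw [cr_map, map_zero] at h4
    simp only [p4, map_pow] at h4
    have h5 : ∀ i, (aeval z : S →ₐ[k] AlgebraicClosure k).toRingHom (Z i) = z i := fun i => by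
      simp [Z]
    simp only [h5] at h4
    exact h4
  refine exists_functionField (K := F) (par 1 (fun i => φ (Z i)))
    (par_mem 1 _ one_ne_zero hw) ?_
  intro f hf h q hq
  -- only the parametrised points are needed
  have h1 := aeval_par_inj φ hφ Z f h
  have h2 := vanish_of_par (k := k) (MvPolynomial.map (algebraMap k (AlgebraicClosure k)) f) (by
    intro μ z hμ _
    rw [eval_map, ← aeval_def, aeval_par_smul f hf μ hμ]
    have h3 := aeval_par_comp (aeval z : S →ₐ[k] AlgebraicClosure k) 1 Z f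
    rw [h1, map_zero, map_one] at h3
    have h5 : ∀ i, (aeval z : S →ₐ[k] AlgebraicClosure k) (Z i) = z i := fun i => by
      simp [Z]
    simp only [h5] at h3
    exact h3.symm) q hq
  rwa [eval_map, ← aeval_def] at h2

end

section
variable {k : Type} [Field k] [CharP k 2]

/-- a good geometric point -/
lemma exists_good : ∃ t : AlgebraicClosure k, t ^ 4 ≠ t ∧
    par 1 ![1, t, t ^ 2] ∈ (surf k).points (AlgebraicClosure k) ∧
    (∀ c, par (1 : AlgebraicClosure k) ![1, t, t ^ 2] c ≠ 0) := by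
  haveI : Infinite (AlgebraicClosure k) := IsAlgClosed.instInfinite
  obtain ⟨t, ht⟩ := exists_pow4_ne (Ω := AlgebraicClosure k)
  have ht0 : t ≠ 0 := by
    rintro rfl
    simp at ht
  have ht3 : t ^ 3 - 1 ≠ 0 := by
    intro h
    apply ht
    linear_combination t * h
  have h2 : (2 : AlgebraicClosure k) = 0 := CharTwo.two_eq_zero
  have hc : ∀ c, par (1 : AlgebraicClosure k) ![1, t, t ^ 2] c ≠ 0 := by
    rintro (i | i)
    · revert i
      apply fin3 <;> simp [par, p2, ht0]
    · revert i
      apply fin3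
      · have : par (1 : AlgebraicClosure k) ![1, t, t ^ 2] (Sum.inr 0) = t ^ 6 * (t ^ 3 - 1) := by
          simp only [par, Sum.elim_inr, w, cr_zero, p4]
          simp
          ring
        rw [this]
        exact mul_ne_zero (pow_ne_zero _ ht0) ht3
      · have : par (1 : AlgebraicClosure k) ![1, t, t ^ 2] (Sum.inr 1) =
            - t ^ 2 * (t ^ 3 - 1) ^ 2 := by
          simp only [par, Sum.elim_inr, w, cr_one, p4]
          simp
          linear_combination (t ^ 2 - t ^ 5) * h2
        rw [this]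
        exact mul_ne_zero (neg_ne_zero.2 (pow_ne_zero _ ht0)) (pow_ne_zero _ ht3)
      · have : par (1 : AlgebraicClosure k) ![1, t, t ^ 2] (Sum.inr 2) = t * (t ^ 3 - 1) := by
          simp only [par, Sum.elim_inr, w, cr_two, p4]
          simp
          ring
        rw [this]
        exact mul_ne_zero ht0 ht3
  refine ⟨t, ht, ?_, hc⟩
  apply par_mem 1 _ one_ne_zero
  intro h0
  have h1 := hc (Sum.inr 0)
  apply h1
  simp only [par, Sum.elim_inr, h0]
  simp

variable {K : Type} [Field K] [Algebra k K] {ξ : Coord 2 2 → K}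

lemma surf_coord_ne_zero (h : IsFunctionField (surf k) K ξ) (c : Coord 2 2) : ξ c ≠ 0 := by
  obtain ⟨t, -, hm, hc⟩ := exists_good (k := k)
  exact coord_ne_zero h c _ hm (hc c)

lemma surf_algInd (h : IsFunctionField (surf k) K ξ) :
    AlgebraicIndependent k (firstProj ξ) := by
  haveI : Infinite (AlgebraicClosure k) := IsAlgClosed.instInfinite
  rw [algebraicIndependent_iff]
  intro p hp
  -- the polynomial in all ratios
  have h1 : aeval (fun i => ξ (Sum.inl i) / ξ (Sum.inl 0)) (rename Fin.succ p) = 0 := by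
    rw [aeval_rename]
    exact hp
  have h2 := relation_transfer h 0 (surf_coord_ne_zero h _) _ h1
  -- evaluate
  have h3 : ∀ v : Fin 2 → AlgebraicClosure k, v 0 ^ 4 ≠ v 0 → aeval v p = 0 := by
    intro v hv
    obtain ⟨b, hb⟩ := IsAlgClosed.exists_pow_nat_eq (v 0) (n := 2) (by norm_num)
    obtain ⟨c, hc⟩ := IsAlgClosed.exists_pow_nat_eq (v 1) (n := 2) (by norm_num)
    have hw : w ![1, b, c] ≠ 0 := by
      intro h0
      have h4 := congrFun h0 2
      simp only [w, cr_two, p4, Pi.zero_apply, Matrix.cons_val_zero, Matrix.cons_val_one] at h4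
      apply hv
      rw [← hb]
      have h5 : b ^ 4 = b := by linear_combination h4
      rw [← pow_mul, mul_comm, pow_mul, h5]
    have h6 := h2 _ (par_mem 1 _ one_ne_zero hw) (by simp [par, p2])
    rw [aeval_rename] at h6
    have h7 : ((fun i => par 1 ![1, b, c] (Sum.inl i) / par 1 ![1, b, c] (Sum.inl 0)) ∘ Fin.succ) =
        v := by
      funext i
      fin_cases i
      · simp [par, p2, hb]
      · simp [par, p2, hc]
    rw [h7] at h6
    exact h6
  obtain ⟨t, ht, -⟩ := exists_good (k := k)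
  have h8 : (MvPolynomial.map (algebraMap k (AlgebraicClosure k)) p) *
      (X 0 ^ 4 - X 0 : MvPolynomial (Fin 2) (AlgebraicClosure k)) = 0 := by
    apply MvPolynomial.funext
    intro v
    rw [map_mul, map_zero, eval_map, ← aeval_def]
    by_cases hv : v 0 ^ 4 = v 0
    · simp [hv]
    · rw [h3 v hv, zero_mul]
  rcases mul_eq_zero.1 h8 with h9 | h9
  · exact MvPolynomial.map_injective _ (algebraMap k (AlgebraicClosure k)).injective
      (by rw [h9, map_zero])
  · exfalso
    apply ht
    have := congrArg (eval fun _ => t) h9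
    simp only [map_sub, map_pow, eval_X, map_zero] at this
    exact sub_eq_zero.1 this

/-- the coordinate `y₁ / y₀` -/
lemma surf_rel (h : IsFunctionField (surf k) K ξ) [CharP K 2] :
    ∃ v : K, v ^ 2 ∈ IntermediateField.adjoin k (Set.range (firstProj ξ)) ∧
      (∀ S : IntermediateField k K, IntermediateField.adjoin k (Set.range (firstProj ξ)) ≤ S →
        v ∈ S → S = ⊤) := by
  have hne := surf_coord_ne_zero h
  have hmem := (mem_surf ξ).1 h.mem
  obtain ⟨-, -, e1, e2⟩ := hmem
  simp only at e1 e2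
  have m1 : ξ (Sum.inl 1) / ξ (Sum.inl 0) ∈ IntermediateField.adjoin k (Set.range (firstProj ξ)) :=
    IntermediateField.subset_adjoin _ _ ⟨0, rfl⟩
  have m2 : ξ (Sum.inl 2) / ξ (Sum.inl 0) ∈ IntermediateField.adjoin k (Set.range (firstProj ξ)) :=
    IntermediateField.subset_adjoin _ _ ⟨1, rfl⟩
  have hx0 := hne (Sum.inl 0)
  have hx1 := hne (Sum.inl 1)
  have hx2 := hne (Sum.inl 2)
  have hy0 := hne (Sum.inr 0)
  have hy1 := hne (Sum.inr 1)
  have hy2 := hne (Sum.inr 2)
  have h2 : (2 : K) = 0 := CharTwo.two_eq_zero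
  set X1 := ξ (Sum.inl 1) / ξ (Sum.inl 0) with hX1
  set X2 := ξ (Sum.inl 2) / ξ (Sum.inl 0) with hX2
  set v := ξ (Sum.inr 1) / ξ (Sum.inr 0) with hv
  set u := ξ (Sum.inr 2) / ξ (Sum.inr 0) with hu
  have hX1' : X1 ≠ 0 := div_ne_zero hx1 hx0
  have hX2' : X2 ≠ 0 := div_ne_zero hx2 hx0
  have r1 : 1 + X1 * v ^ 2 + X2 * u ^ 2 = 0 := by
    rw [hX1, hX2, hv, hu]
    field_simp
    linear_combination e1
  have r2 : 1 + X1 ^ 2 * v + X2 ^ 2 * u = 0 := by
    rw [hX1, hX2, hv, hu]
    field_simp
    linear_combination e2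
  have r3 : X1 * (X2 ^ 3 + X1 ^ 3) * v ^ 2 = X2 ^ 3 + 1 := by
    linear_combination X2 ^ 3 * r1 + (1 + X1 ^ 2 * v + X2 ^ 2 * u) * r2 -
      (X2 ^ 3 + 1 + X2 ^ 4 * u ^ 2 + X1 ^ 2 * v + X2 ^ 2 * u * X1 ^ 2 * v + X2 ^ 2 * u) * h2
  have hden : X2 ^ 3 + X1 ^ 3 ≠ 0 := by
    intro h0
    obtain ⟨t, ht, hm, hc⟩ := exists_good (k := k)
    have h5 := relation_transfer h 0 hx0 (X 2 ^ 3 + X 1 ^ 3) (by
      simp only [map_add, map_pow, aeval_X]
      exact h0) _ hm (hc _)
    simp only [map_add, map_pow, aeval_X, par, Sum.elim_inl, p2] at h5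
    simp at h5
    have ht0 : t ≠ 0 := by
      rintro rfl
      simp at ht
    have ht3 : t ^ 3 - 1 ≠ 0 := by
      intro h
      apply ht
      linear_combination t * h
    have h22 : (2 : AlgebraicClosure k) = 0 := CharTwo.two_eq_zero
    have : t ^ 6 * (t ^ 3 - 1) ^ 2 = 0 := by
      linear_combination h5 - t ^ 9 * h22
    exact mul_ne_zero (pow_ne_zero _ ht0) (pow_ne_zero _ ht3) this
  have hu' : u = -(1 + X1 ^ 2 * v) / X2 ^ 2 := by
    field_simp
    linear_combination r2
  refine ⟨v, ?_, ?_⟩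
  · have : v ^ 2 = (X2 ^ 3 + 1) / (X1 * (X2 ^ 3 + X1 ^ 3)) := by
      rw [eq_div_iff (mul_ne_zero hX1' hden)]
      linear_combination r3
    rw [this]
    exact div_mem (add_mem (pow_mem m2 3) (one_mem _))
      (mul_mem m1 (add_mem (pow_mem m2 3) (pow_mem m1 3)))
  · intro S hS hvS
    have n1 := hS m1
    have n2 := hS m2
    have n3 : u ∈ S := by
      rw [hu']
      exact div_mem (neg_mem (add_mem (one_mem _) (mul_mem (pow_mem n1 2) hvS))) (pow_mem n2 2)
    rw [eq_top_iff, ← h.gen, IntermediateField.adjoin_le_iff]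
    have a1 : ∀ i : Fin 3, ξ (Sum.inl i) / ξ (Sum.inl 0) ∈ S := by
      apply fin3
      · rw [div_self hx0]; exact one_mem _
      · exact n1
      · exact n2
    have a2 : ∀ i : Fin 3, ξ (Sum.inr i) / ξ (Sum.inr 0) ∈ S := by
      apply fin3
      · rw [div_self hy0]; exact one_mem _
      · exact hvS
      · exact n3
    rintro z (⟨i, j, -, rfl⟩ | ⟨i, j, -, rfl⟩)
    · show ξ (Sum.inl i) / ξ (Sum.inl j) ∈ S
      rw [← div_div_div_cancel_right₀ hx0]
      exact div_mem (a1 i) (a1 j)
    · show ξ (Sum.inr i) / ξ (Sum.inr j) ∈ S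
      rw [← div_div_div_cancel_right₀ hy0]
      exact div_mem (a2 i) (a2 j)

end

end Pool.Agent.W492.Gon
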